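import Pool.Agent.Q195.CS.Low

/-!
Nonzero classes and blocks.
-/

set_option linter.unusedSectionVars false
set_option linter.unusedVariables false

namespace Pool.Agent.Q195.CS

open Finset

variable {V : Type*} [Fintype V] [DecidableEq V] {ι : Type*} [Fintype ι] [LinearOrder ι]
variable {a b : ι → V}

lemma reach_insert {K : Finset ι} {e : ι} {c w : V}
    (hcw : (a e = c ∧ b e = w) ∨ (a e = w ∧ b e = c)) (u v : V) :
    (gr a b (insert e K)).Reachable u v ↔ (gr a b K).Reachable u v ∨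
      ((gr a b K).Reachable u c ∧ (gr a b K).Reachable w v) ∨
      ((gr a b K).Reachable u w ∧ (gr a b K).Reachable c v) := by
  set R := (gr a b K).Reachable with hR
  have r0 : ∀ x, R x x := fun x => SimpleGraph.Reachable.refl _
  have r1 : ∀ x y, R x y → R y x := fun x y h => h.symm
  have r2 : ∀ x y z, R x y → R y z → R x z := fun x y z h h' => h.trans h'
  constructor
  · intro h
    refine gr_reach_le (fun u v => R u v ∨ (R u c ∧ R w v) ∨ (R u w ∧ R c v)) ?_ ?_ ?_ ?_ h
    · intro x; exact Or.inl (r0 x)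
    · rintro x y (h | ⟨h, h'⟩ | ⟨h, h'⟩)
      · exact Or.inl (r1 _ _ h)
      · exact Or.inr (Or.inr ⟨r1 _ _ h', r1 _ _ h⟩)
      · exact Or.inr (Or.inl ⟨r1 _ _ h', r1 _ _ h⟩)
    · rintro x y z (h | ⟨h, h'⟩ | ⟨h, h'⟩) (g | ⟨g, g'⟩ | ⟨g, g'⟩)
      · exact Or.inl (r2 _ _ _ h g)
      · exact Or.inr (Or.inl ⟨r2 _ _ _ h g, g'⟩)
      · exact Or.inr (Or.inr ⟨r2 _ _ _ h g, g'⟩)
      · exact Or.inr (Or.inl ⟨h, r2 _ _ _ h' g⟩)
      · exact Or.inr (Or.inl ⟨h, g'⟩)
      · exact Or.inl (r2 _ _ _ h g')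
      · exact Or.inr (Or.inr ⟨h, r2 _ _ _ h' g⟩)
      · exact Or.inl (r2 _ _ _ h g')
      · exact Or.inr (Or.inr ⟨h, g'⟩)
    · intro f hf
      rcases Finset.mem_insert.1 hf with rfl | hf
      · rcases hcw with ⟨h1, h2⟩ | ⟨h1, h2⟩
        · rw [h1, h2]; exact Or.inr (Or.inl ⟨r0 _, r0 _⟩)
        · rw [h1, h2]; exact Or.inr (Or.inr ⟨r0 _, r0 _⟩)
      · exact Or.inl (gr_reach_edge hf)
  · have m : ∀ {x y}, R x y → (gr a b (insert e K)).Reachable x y := fun h =>
      h.mono (gr_mono (Finset.subset_insert _ _))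
    have hcw' : (gr a b (insert e K)).Reachable c w := by
      have := gr_reach_edge (a := a) (b := b) (Finset.mem_insert_self e K)
      rcases hcw with ⟨h1, h2⟩ | ⟨h1, h2⟩
      · rwa [h1, h2] at this
      · rw [h1, h2] at this; exact this.symm
    rintro (h | ⟨h, h'⟩ | ⟨h, h'⟩)
    · exact m h
    · exact ((m h).trans hcw').trans (m h')
    · exact ((m h).trans hcw'.symm).trans (m h')

lemma rtg_mono {α : Type*} {r s : α → α → Prop} (h : ∀ p q, r p q → s p q) {x y : α}
    (hxy : Relation.ReflTransGen r x y) : Relation.ReflTransGen s x y := by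
  induction hxy with
  | refl => exact Relation.ReflTransGen.refl
  | tail _ h2 ih => exact ih.tail (h _ _ h2)

open Classical in
/-- the edges that are not loops modulo `K` -/
noncomputable def EK (a b : ι → V) (E K : Finset ι) : Finset ι :=
  E.filter (fun e => ¬ (gr a b K).Reachable (a e) (b e))

/-- a nonzero class on the diagonal -/
def NZ (a b : ι → V) (E K : Finset ι) (j : ℕ) : Prop :=
  ¬ Van (AF a b j) K (EK a b E K) ((Fintype.card V : ℤ) - 1 - K.card - j)

lemma add_par {K Em : Finset ι} {e : ι} {j : ℕ} {k : ℤ} (he : e ∈ Em)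
    (hn : ¬ Van (AF a b j) K Em k) :
    ∀ S : Finset ι, (∀ f ∈ S, f ∉ Em ∧ (gr a b (insert f K)).Reachable (a e) (b e)) →
      ¬ Van (AF a b j) K (Em ∪ S) k := by
  intro S
  induction S using Finset.induction_on with
  | empty => intro _; simpa using hn
  | insert f S hf ih =>
    intro h
    have h1 := ih fun g hg => h g (Finset.mem_insert_of_mem hg)
    obtain ⟨h2, h3⟩ := h f (Finset.mem_insert_self _ _)
    have hfe : e ≠ f := fun h => h2 (h ▸ he)
    have hfn : f ∉ Em ∪ S := by simp [h2, hf]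
    refine nonvan_parallel (e := e) (f := f) ?_ ?_ hfe ?_ ?_
    · exact Finset.mem_union_left _ he
    · simp
    · intro φ hφ
      exact nul_reach hφ h3
    · rwa [Finset.union_insert, Finset.erase_insert hfn]

theorem step {E K : Finset ι} {e : ι} (he : e ∈ E)
    (hne : ¬ (gr a b K).Reachable (a e) (b e))
    (hc : ∀ u v, (gr a b E).Reachable u v) {j : ℕ} (h : NZ a b E (insert e K) j) :
    ((gr a b (K ∪ EK a b E (insert e K))).Reachable (a e) (b e) → NZ a b E K j) ∧
    (¬ (gr a b (K ∪ EK a b E (insert e K))).Reachable (a e) (b e) → NZ a b E K (j + 1)) := by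
  classical
  have heK : e ∉ K := fun h => hne (gr_reach_edge h)
  have hcard : ((insert e K).card : ℤ) = K.card + 1 := by
    rw [Finset.card_insert_of_notMem heK]; push_cast; ring
  set E1 := EK a b E (insert e K) with hE1
  have he1 : e ∉ E1 := by
    rw [hE1]; unfold EK
    simp only [Finset.mem_filter, not_and, not_not]
    intro _
    exact gr_reach_edge (Finset.mem_insert_self _ _)
  have her : (insert e E1).erase e = E1 := Finset.erase_insert he1
  have hce : ∀ u v, (gr a b (K ∪ insert e E1)).Reachable u v := by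
    intro u v
    refine gr_reach_le (fun u v => (gr a b (K ∪ insert e E1)).Reachable u v)
      (fun x => SimpleGraph.Reachable.refl _) (fun x y hxy => hxy.symm)
      (fun x y z hxy hyz => hxy.trans hyz) ?_ (hc u v)
    intro f hf
    by_cases hf1 : f ∈ E1
    · exact gr_reach_edge (by simp [hf1])
    · have h2 : (gr a b (insert e K)).Reachable (a f) (b f) := by
        by_contra h3
        exact hf1 (by rw [hE1]; unfold EK; simp [hf, h3])
      refine h2.mono (gr_mono ?_)
      intro g hg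
      rcases Finset.mem_insert.1 hg with h4 | h4
      · simp [h4]
      · simp [h4]
  have hEE : EK a b E K = insert e E1 ∪ (EK a b E K \ insert e E1) := by
    rw [Finset.union_sdiff_of_subset]
    intro f hf
    rcases Finset.mem_insert.1 hf with h4 | h4
    · rw [h4]; unfold EK; simp [he, hne]
    · rw [hE1] at h4
      unfold EK at h4 ⊢
      rw [Finset.mem_filter] at h4 ⊢
      exact ⟨h4.1, fun h5 => h4.2 (h5.mono (gr_mono (Finset.subset_insert _ _)))⟩
  have hpar : ∀ f ∈ EK a b E K \ insert e E1,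
      f ∉ insert e E1 ∧ (gr a b (insert f K)).Reachable (a e) (b e) := by
    intro f hf
    obtain ⟨hf1, hf2⟩ := Finset.mem_sdiff.1 hf
    refine ⟨hf2, ?_⟩
    have hf3 : f ∈ E ∧ ¬ (gr a b K).Reachable (a f) (b f) := by
      unfold EK at hf1; simpa using hf1
    have hf4 : (gr a b (insert e K)).Reachable (a f) (b f) := by
      by_contra h3
      exact hf2 (Finset.mem_insert_of_mem (by rw [hE1]; unfold EK; simp [hf3.1, h3]))
    rw [reach_insert (Or.inl ⟨rfl, rfl⟩)] at hf4
    rw [reach_insert (Or.inl ⟨rfl, rfl⟩)]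
    rcases hf4 with h5 | ⟨h5, h6⟩ | ⟨h5, h6⟩
    · exact absurd h5 hf3.2
    · exact Or.inr (Or.inl ⟨h5.symm, h6.symm⟩)
    · exact Or.inr (Or.inr ⟨h6, h5⟩)
  unfold NZ at h
  rw [← hE1] at h
  constructor
  · intro hb
    unfold NZ
    rw [hEE]
    refine add_par (Finset.mem_insert_self e E1) ?_ _ hpar
    have h2 := nonvan_nonbridge (a := a) (b := b) (e := e) (E := insert e E1) (K := K) (j := j)
      (k := (Fintype.card V : ℤ) - 1 - (insert e K).card - j) (Finset.mem_insert_self _ _) hce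
      (by rw [her]; exact hb) (by rw [hcard]; omega) (by rw [her]; exact h)
    rw [hcard] at h2
    have h3 : (Fintype.card V : ℤ) - 1 - (K.card + 1) - j + 1 = (Fintype.card V : ℤ) - 1 - K.card - j := by
      ring
    rwa [h3] at h2
  · intro hb
    unfold NZ
    rw [hEE]
    refine add_par (Finset.mem_insert_self e E1) ?_ _ hpar
    have h2 := nonvan_bridge (a := a) (b := b) (e := e) (E := insert e E1) (K := K) (j := j)
      (k := (Fintype.card V : ℤ) - 1 - (insert e K).card - j) (Finset.mem_insert_self _ _)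
      (by rw [her]; exact hb) (by rw [her]; exact h)
    rw [hcard] at h2
    have h3 : (Fintype.card V : ℤ) - 1 - (K.card + 1) - j = (Fintype.card V : ℤ) - 1 - K.card - ((j + 1 : ℕ) : ℤ) := by
      push_cast; ring
    rwa [h3] at h2

lemma gr_adj {E : Finset ι} {u v : V} : (gr a b E).Adj u v ↔
    u ≠ v ∧ ∃ e ∈ E, (a e = u ∧ b e = v) ∨ (a e = v ∧ b e = u) := by
  unfold gr
  rw [SimpleGraph.fromRel_adj]
  constructor
  · rintro ⟨h, ⟨e, he, h1⟩ | ⟨e, he, h1⟩⟩
    · exact ⟨h, e, he, Or.inl h1⟩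
    · exact ⟨h, e, he, Or.inr h1⟩
  · rintro ⟨h, e, he, h1 | h1⟩
    · exact ⟨h, Or.inl ⟨e, he, h1⟩⟩
    · exact ⟨h, Or.inr ⟨e, he, h1⟩⟩

/-- the recursion over connected pieces -/
theorem rec_main {E : Finset ι} (hc : ∀ u v, (gr a b E).Reachable u v)
    (BL : Finset (Finset V)) (hBne : ∀ B ∈ BL, B.Nonempty)
    (hB1 : ∀ u v, (gr a b E).Adj u v → ∃ B ∈ BL, u ∈ B ∧ v ∈ B)
    (hB2 : ∀ B ∈ BL, ∀ w : V, ∀ C : Finset V, (∃ c ∈ B, c ∈ C ∧ c ≠ w) →
      (∃ y ∈ B, y ∉ C ∧ y ≠ w) → ∃ p q, p ∈ C ∧ q ∉ C ∧ q ≠ w ∧ (gr a b E).Adj p q) :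
    ∀ (m : ℕ) (Y W : Finset V) (w : V) (K : Finset ι), (Y \ W).card = m → w ∈ W → W ⊆ Y →
      (∀ x ∈ W, ∀ y, (gr a b K).Reachable x y ↔ y ∈ W) →
      (∀ x ∈ Y \ W, ∀ y, (gr a b K).Reachable x y → y = x) →
      (∀ D : Finset V, D ⊆ Y \ W → D.Nonempty →
        (∀ p ∈ D, ∀ q ∈ (Y \ W) \ D, ¬ (gr a b E).Adj p q) → ∃ d ∈ D, (gr a b E).Adj d w) →
      (∀ p ∈ W, p ≠ w → ∀ q ∈ Y \ W, ¬ (gr a b E).Adj p q) →
      (∀ y ∈ Y \ W, ∀ z, z ∉ Y → (gr a b E).Adj y z →
        Relation.ReflTransGen (fun p q => (p ∉ Y ∨ p ∈ W) ∧ (q ∉ Y ∨ q ∈ W) ∧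
          (gr a b E).Adj p q) z w) →
      ∃ (K' : Finset ι) (i : ℕ), K'.card = K.card + (Y \ W).card ∧
        i ≤ (BL.filter (fun B => B ⊆ Y ∧ ¬ B ⊆ W)).card ∧
        (∀ x ∈ Y, ∀ y, (gr a b K').Reachable x y ↔ y ∈ Y) ∧
        (∀ x, x ∉ Y → ∀ y, (gr a b K').Reachable x y ↔ (gr a b K).Reachable x y) ∧
        (∀ j', NZ a b E K' j' → NZ a b E K (j' + i)) := by
  classical
  intro m
  induction m using Nat.strong_induction_on with
  | _ m ih =>
  intro Y W w K hm hwW hWY hW hS h1 hno hst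
  by_cases hYW : Y \ W = ∅
  · have hYW' : Y = W := Finset.Subset.antisymm (Finset.sdiff_eq_empty_iff_subset.1 hYW) hWY
    refine ⟨K, 0, by rw [hYW]; simp, Nat.zero_le _, ?_, fun x _ y => Iff.rfl, fun j' h => h⟩
    rw [hYW']; exact hW
  -- a minimal nonempty closed subset
  have hex : ∃ C : Finset V, C ⊆ Y \ W ∧ C.Nonempty ∧
      (∀ p ∈ C, ∀ q ∈ (Y \ W) \ C, ¬ (gr a b E).Adj p q) ∧
      ∀ D : Finset V, D ⊆ C → D.Nonempty → (∀ p ∈ D, ∀ q ∈ (Y \ W) \ D, ¬ (gr a b E).Adj p q) →
        D = C := by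
    classical
    let S := (Y \ W).powerset.filter (fun C => C.Nonempty ∧
      (∀ p ∈ C, ∀ q ∈ (Y \ W) \ C, ¬ (gr a b E).Adj p q))
    have hSne : S.Nonempty := by
      refine ⟨Y \ W, ?_⟩
      simp only [S, Finset.mem_filter, Finset.mem_powerset]
      refine ⟨Finset.Subset.refl _, Finset.nonempty_iff_ne_empty.2 hYW, ?_⟩
      intro p _ q hq
      simp at hq
    obtain ⟨C, hCS, hCmin⟩ := Finset.exists_min_image S Finset.card hSne
    simp only [S, Finset.mem_filter, Finset.mem_powerset] at hCS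
    refine ⟨C, hCS.1, hCS.2.1, hCS.2.2, ?_⟩
    intro D hDC hDne hD
    have := hCmin D (by
      simp only [S, Finset.mem_filter, Finset.mem_powerset]
      exact ⟨hDC.trans hCS.1, hDne, hD⟩)
    exact Finset.eq_of_subset_of_card_le hDC this
  obtain ⟨C, hCY, hCne, hCcl, hCmin⟩ := hex
  obtain ⟨c, hcC, hcw⟩ := h1 C hCY hCne hCcl
  have hCW : ∀ x ∈ C, x ∉ W := fun x hx => (Finset.mem_sdiff.1 (hCY hx)).2
  have hCY' : ∀ x ∈ C, x ∈ Y := fun x hx => (Finset.mem_sdiff.1 (hCY hx)).1
  have hwC : w ∉ C := fun h => hCW w h hwW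
  have hcW : c ∉ W := hCW c hcC
  -- first call
  have hlt1 : (C \ {c}).card < m := by
    rw [← hm]
    refine lt_of_lt_of_le ?_ (Finset.card_le_card hCY)
    refine Finset.card_lt_card ?_
    rw [Finset.ssubset_iff_subset_ne]
    refine ⟨Finset.sdiff_subset, ?_⟩
    intro h
    have : c ∈ C \ {c} := by rw [h]; exact hcC
    simp at this
  obtain ⟨K1, i1, hK1c, hi1, hK1a, hK1b, hK1n⟩ := ih _ hlt1 C {c} c K rfl (by simp)
    (by simpa using hcC)
    (by
      intro x hx y
      rw [Finset.mem_singleton] at hx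
      subst hx
      rw [Finset.mem_singleton]
      constructor
      · exact hS _ (hCY hcC) y
      · rintro rfl; exact SimpleGraph.Reachable.refl _)
    (by
      intro x hx y hxy
      exact hS x (hCY (Finset.mem_sdiff.1 hx).1) y hxy)
    (by
      intro D hD hDne hDcl
      by_contra hcon
      push Not at hcon
      have hDC : D ⊆ C := fun x hx => (Finset.mem_sdiff.1 (hD hx)).1
      have hcD : c ∉ D := fun h => by
        have := (Finset.mem_sdiff.1 (hD h)).2
        simp at this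
      have := hCmin D hDC hDne (by
        intro p hp q hq hpq
        obtain ⟨hq1, hq2⟩ := Finset.mem_sdiff.1 hq
        by_cases hqC : q ∈ C
        · by_cases hqc : q = c
          · subst hqc; exact hcon p hp hpq
          · exact hDcl p hp q (by simp [hqC, hqc, hq2]) hpq
        · exact hCcl p (hDC hp) q (Finset.mem_sdiff.2 ⟨hq1, hqC⟩) hpq)
      rw [this] at hcD
      exact hcD hcC)
    (by
      intro p hp hpc
      exact absurd (Finset.mem_singleton.1 hp) hpc)
    (by
      intro y hy z hz hyz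
      have hyC := (Finset.mem_sdiff.1 hy).1
      have last : Relation.ReflTransGen (fun p q => (p ∉ C ∨ p ∈ ({c} : Finset V)) ∧
          (q ∉ C ∨ q ∈ ({c} : Finset V)) ∧ (gr a b E).Adj p q) w c :=
        Relation.ReflTransGen.single ⟨Or.inl hwC, Or.inr (by simp), hcw.symm⟩
      by_cases hzY : z ∈ Y
      · have hzW : z ∈ W := by
          by_contra hzW
          exact hCcl y hyC z (Finset.mem_sdiff.2 ⟨Finset.mem_sdiff.2 ⟨hzY, hzW⟩, hz⟩) hyz
        have hzw : z = w := by
          by_contra hzw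
          exact hno z hzW hzw y (hCY hyC) hyz.symm
        rw [hzw]; exact last
      · refine Relation.ReflTransGen.trans (rtg_mono ?_
          (hst y (hCY hyC) z hzY hyz)) last
        rintro p q ⟨hp, hq, hpq⟩
        refine ⟨Or.inl ?_, Or.inl ?_, hpq⟩
        · intro hpC
          rcases hp with hp | hp
          · exact hp (hCY' p hpC)
          · exact hCW p hpC hp
        · intro hqC
          rcases hq with hq | hq
          · exact hq (hCY' q hqC)
          · exact hCW q hqC hq)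
  -- the merging edge
  obtain ⟨hcwne, e0, he0, he0'⟩ := gr_adj.1 hcw
  have hcw' : (a e0 = c ∧ b e0 = w) ∨ (a e0 = w ∧ b e0 = c) := he0'
  have hK1W : ∀ x ∈ W, ∀ y, (gr a b K1).Reachable x y ↔ y ∈ W := fun x hx y => by
    rw [hK1b x (fun h => hCW x h hx) y]; exact hW x hx y
  have hne1 : ¬ (gr a b K1).Reachable c w := fun h => hwC ((hK1a c hcC w).1 h)
  have hne : ¬ (gr a b K1).Reachable (a e0) (b e0) := by
    rcases hcw' with ⟨h, h'⟩ | ⟨h, h'⟩
    · rw [h, h']; exact hne1
    · rw [h, h']; exact fun g => hne1 g.symm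
  have hR2 := reach_insert (K := K1) hcw'
  set K2 := insert e0 K1 with hK2
  have hK2a : ∀ x ∈ W ∪ C, ∀ y, (gr a b K2).Reachable x y ↔ y ∈ W ∪ C := by
    intro x hx y
    rw [hR2]
    constructor
    · rintro (h | ⟨_, h⟩ | ⟨_, h⟩)
      · rcases Finset.mem_union.1 hx with hx | hx
        · exact Finset.mem_union_left _ ((hK1W x hx y).1 h)
        · exact Finset.mem_union_right _ ((hK1a x hx y).1 h)
      · exact Finset.mem_union_left _ ((hK1W w hwW y).1 h)
      · exact Finset.mem_union_right _ ((hK1a c hcC y).1 h)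
    · intro hy
      rcases Finset.mem_union.1 hx with hx | hx <;> rcases Finset.mem_union.1 hy with hy | hy
      · exact Or.inl ((hK1W x hx y).2 hy)
      · exact Or.inr (Or.inr ⟨(hK1W x hx w).2 hwW, (hK1a c hcC y).2 hy⟩)
      · exact Or.inr (Or.inl ⟨(hK1a x hx c).2 hcC, (hK1W w hwW y).2 hy⟩)
      · exact Or.inl ((hK1a x hx y).2 hy)
  have hK2b : ∀ x, x ∉ W ∪ C → ∀ y, (gr a b K2).Reachable x y ↔ (gr a b K).Reachable x y := by
    intro x hx y
    rw [Finset.mem_union, not_or] at hx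
    rw [hR2, hK1b x hx.2 y]
    constructor
    · rintro (h | ⟨h, _⟩ | ⟨h, _⟩)
      · exact h
      · exact absurd ((hK1a c hcC x).1 h.symm) hx.2
      · exact absurd ((hK1W w hwW x).1 h.symm) hx.1
    · exact Or.inl
  -- second call
  have hlt2 : (Y \ (W ∪ C)).card < m := by
    rw [← hm]
    refine Finset.card_lt_card ?_
    rw [Finset.ssubset_iff_subset_ne]
    refine ⟨Finset.sdiff_subset_sdiff (Finset.Subset.refl _) Finset.subset_union_left, ?_⟩
    intro h
    have : c ∈ Y \ (W ∪ C) := by rw [h]; exact hCY hcC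
    simp [hcC] at this
  have hsub : ∀ x, x ∈ Y \ (W ∪ C) → x ∈ Y \ W ∧ x ∉ C := by
    intro x hx
    rw [Finset.mem_sdiff, Finset.mem_union, not_or] at hx
    exact ⟨Finset.mem_sdiff.2 ⟨hx.1, hx.2.1⟩, hx.2.2⟩
  obtain ⟨K3, i3, hK3c, hi3, hK3a, hK3b, hK3n⟩ := ih _ hlt2 Y (W ∪ C) w K2 rfl
    (Finset.mem_union_left _ hwW)
    (Finset.union_subset hWY (fun x hx => hCY' x hx))
    hK2a
    (by
      intro x hx y hxy
      have h2 := hsub x hx
      rw [hK2b x (Finset.mem_sdiff.1 hx).2] at hxy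
      exact hS x h2.1 y hxy)
    (by
      intro D hD hDne hDcl
      refine h1 D (fun x hx => (hsub x (hD hx)).1) hDne ?_
      intro p hp q hq hpq
      obtain ⟨hq1, hq2⟩ := Finset.mem_sdiff.1 hq
      by_cases hqC : q ∈ C
      · exact hCcl q hqC p (Finset.mem_sdiff.2 ⟨(hsub p (hD hp)).1, (hsub p (hD hp)).2⟩) hpq.symm
      · refine hDcl p hp q ?_ hpq
        have hq3 := Finset.mem_sdiff.1 hq1
        simp [hq3.1, hq3.2, hqC, hq2])
    (by
      intro p hp hpw q hq hpq
      have h2 := hsub q hq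
      rcases Finset.mem_union.1 hp with hp | hp
      · exact hno p hp hpw q h2.1 hpq
      · exact hCcl p hp q (Finset.mem_sdiff.2 ⟨h2.1, h2.2⟩) hpq)
    (by
      intro y hy z hz hyz
      refine rtg_mono ?_ (hst y (hsub y hy).1 z hz hyz)
      rintro p q ⟨hp, hq, hpq⟩
      exact ⟨hp.imp_right (fun h => Finset.mem_union_left _ h),
        hq.imp_right (fun h => Finset.mem_union_left _ h), hpq⟩)
  -- cardinalities
  have he0K : e0 ∉ K1 := fun h => hne (gr_reach_edge h)
  have hcardC : (C \ {c}).card + 1 = C.card := by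
    rw [Finset.sdiff_singleton_eq_erase, Finset.card_erase_add_one hcC]
  have hcardY : (Y \ (W ∪ C)).card + C.card = (Y \ W).card := by
    have : Y \ (W ∪ C) = (Y \ W) \ C := by
      ext x; simp [not_or, and_assoc]
    rw [this, Finset.card_sdiff_add_card_eq_card hCY]
  -- counting
  have hF1 : BL.filter (fun B => B ⊆ C ∧ ¬ B ⊆ {c}) ⊆ BL.filter (fun B => B ⊆ Y ∧ ¬ B ⊆ W) := by
    intro B hB
    rw [Finset.mem_filter] at hB ⊢
    refine ⟨hB.1, fun x hx => hCY' x (hB.2.1 hx), fun h => ?_⟩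
    obtain ⟨x, hx⟩ := hBne B hB.1
    exact hCW x (hB.2.1 hx) (h hx)
  have hF3 : BL.filter (fun B => B ⊆ Y ∧ ¬ B ⊆ W ∪ C) ⊆ BL.filter (fun B => B ⊆ Y ∧ ¬ B ⊆ W) := by
    intro B hB
    rw [Finset.mem_filter] at hB ⊢
    exact ⟨hB.1, hB.2.1, fun h => hB.2.2 (h.trans Finset.subset_union_left)⟩
  have hF13 : Disjoint (BL.filter (fun B => B ⊆ C ∧ ¬ B ⊆ {c}))
      (BL.filter (fun B => B ⊆ Y ∧ ¬ B ⊆ W ∪ C)) := by
    rw [Finset.disjoint_left]
    intro B hB hB'
    rw [Finset.mem_filter] at hB hB'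
    exact hB'.2.2 (hB.2.1.trans Finset.subset_union_right)
  by_cases hbr : (gr a b (K1 ∪ EK a b E K2)).Reachable (a e0) (b e0)
  · refine ⟨K3, i1 + i3, ?_, ?_, hK3a, ?_, ?_⟩
    · rw [hK3c, hK2, Finset.card_insert_of_notMem he0K, hK1c]; omega
    · have : (BL.filter (fun B => B ⊆ C ∧ ¬ B ⊆ {c})).card +
          (BL.filter (fun B => B ⊆ Y ∧ ¬ B ⊆ W ∪ C)).card ≤
          (BL.filter (fun B => B ⊆ Y ∧ ¬ B ⊆ W)).card := by
        rw [← Finset.card_union_of_disjoint hF13]
        exact Finset.card_le_card (Finset.union_subset hF1 hF3)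
      omega
    · intro x hx y
      rw [hK3b x hx y]
      refine hK2b x ?_ y
      rw [Finset.mem_union, not_or]
      exact ⟨fun h => hx (hWY h), fun h => hx (hCY' x h)⟩
    · intro j' hj'
      have h2 := hK3n j' hj'
      have h3 := (step he0 hne hc h2).1 hbr
      have h4 := hK1n _ h3
      rwa [show j' + (i1 + i3) = j' + i3 + i1 by ring]
  · -- the block of the bridge
    obtain ⟨B0, hB0, hcB, hwB⟩ := hB1 c w hcw
    have hB0C : B0 ⊆ insert w C := by
      intro y hy
      by_contra hyn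
      rw [Finset.mem_insert, not_or] at hyn
      obtain ⟨p, q, hpC, hqC, hqw, hpq⟩ := hB2 B0 hB0 w C ⟨c, hcB, hcC, hcwne⟩ ⟨y, hy, hyn.2, hyn.1⟩
      have hqY : q ∉ Y := by
        intro hqY
        by_cases hqW : q ∈ W
        · exact hno q hqW hqw p (hCY hpC) hpq.symm
        · exact hCcl p hpC q (Finset.mem_sdiff.2 ⟨Finset.mem_sdiff.2 ⟨hqY, hqW⟩, hqC⟩) hpq
      have hpath := hst p (hCY hpC) q hqY hpq
      -- everything is reachable
      have hmono1 : ∀ {x y}, (gr a b K1).Reachable x y →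
          (gr a b (K1 ∪ EK a b E K2)).Reachable x y := fun h =>
        h.mono (gr_mono Finset.subset_union_left)
      have hedge : ∀ p q, (gr a b E).Adj p q → ((gr a b K2).Reachable p q → 
          (gr a b K1).Reachable p q) → (gr a b (K1 ∪ EK a b E K2)).Reachable p q := by
        intro p q hpq himp
        by_cases h2 : (gr a b K2).Reachable p q
        · exact hmono1 (himp h2)
        · obtain ⟨_, f, hf, hf'⟩ := gr_adj.1 hpq
          have hfE : f ∈ EK a b E K2 := by
            unfold EK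
            rw [Finset.mem_filter]
            refine ⟨hf, ?_⟩
            rcases hf' with ⟨g1, g2⟩ | ⟨g1, g2⟩
            · rw [g1, g2]; exact h2
            · rw [g1, g2]; exact fun g => h2 g.symm
          have h3 := gr_reach_edge (a := a) (b := b) (Finset.mem_union_right K1 hfE)
          rcases hf' with ⟨g1, g2⟩ | ⟨g1, g2⟩
          · rwa [g1, g2] at h3
          · rw [g1, g2] at h3; exact h3.symm
      have h5 : (gr a b (K1 ∪ EK a b E K2)).Reachable p q := by
        refine hedge p q hpq fun h2 => ?_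
        rw [hK2a p (Finset.mem_union_right _ hpC) q] at h2
        rcases Finset.mem_union.1 h2 with h2 | h2
        · exact absurd (hWY h2) hqY
        · exact absurd h2 hqC
      have h6 : (gr a b (K1 ∪ EK a b E K2)).Reachable q w := by
        have : ∀ x, Relation.ReflTransGen (fun p q => (p ∉ Y ∨ p ∈ W) ∧ (q ∉ Y ∨ q ∈ W) ∧
          (gr a b E).Adj p q) q x → (gr a b (K1 ∪ EK a b E K2)).Reachable q x := by
          intro x hx
          induction hx with
          | refl => exact SimpleGraph.Reachable.refl _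
          | tail _ hrs ihx =>
            rename_i r s _
            obtain ⟨hr, hs, hadj⟩ := hrs
            refine ihx.trans (hedge r s hadj fun h2 => ?_)
            have hrC : r ∉ C := fun h => by
              rcases hr with hr | hr
              · exact hr (hCY' r h)
              · exact hCW r h hr
            have hsC : s ∉ C := fun h => by
              rcases hs with hs | hs
              · exact hs (hCY' s h)
              · exact hCW s h hs
            rw [hR2] at h2
            rcases h2 with h2 | ⟨h2, _⟩ | ⟨_, h2⟩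
            · exact h2
            · exact absurd ((hK1a c hcC r).1 h2.symm) hrC
            · exact absurd ((hK1a c hcC s).1 h2) hsC
        exact this w hpath
      have h7 : (gr a b (K1 ∪ EK a b E K2)).Reachable c w :=
        ((hmono1 ((hK1a c hcC p).2 hpC)).trans h5).trans h6
      apply hbr
      rcases hcw' with ⟨g1, g2⟩ | ⟨g1, g2⟩
      · rw [g1, g2]; exact h7
      · rw [g1, g2]; exact h7.symm
    have hwY : w ∈ Y := hWY hwW
    have hB0F : B0 ∈ BL.filter (fun B => B ⊆ Y ∧ ¬ B ⊆ W) := by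
      rw [Finset.mem_filter]
      refine ⟨hB0, ?_, fun h => hcW (h hcB)⟩
      intro x hx
      rcases Finset.mem_insert.1 (hB0C hx) with h | h
      · rw [h]; exact hwY
      · exact hCY' x h
    have hB0n : B0 ∉ BL.filter (fun B => B ⊆ C ∧ ¬ B ⊆ {c}) ∪
        BL.filter (fun B => B ⊆ Y ∧ ¬ B ⊆ W ∪ C) := by
      rw [Finset.mem_union, Finset.mem_filter, Finset.mem_filter]
      rintro (⟨_, h, _⟩ | ⟨_, _, h⟩)
      · exact hwC (h hwB)
      · apply h
        intro x hx
        rcases Finset.mem_insert.1 (hB0C hx) with h' | h'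
        · rw [h']; exact Finset.mem_union_left _ hwW
        · exact Finset.mem_union_right _ h'
    refine ⟨K3, i1 + i3 + 1, ?_, ?_, hK3a, ?_, ?_⟩
    · rw [hK3c, hK2, Finset.card_insert_of_notMem he0K, hK1c]; omega
    · have : (BL.filter (fun B => B ⊆ C ∧ ¬ B ⊆ {c})).card +
          (BL.filter (fun B => B ⊆ Y ∧ ¬ B ⊆ W ∪ C)).card + 1 ≤
          (BL.filter (fun B => B ⊆ Y ∧ ¬ B ⊆ W)).card := by
        rw [← Finset.card_union_of_disjoint hF13, ← Finset.card_insert_of_notMem hB0n]
        exact Finset.card_le_card (Finset.insert_subset hB0F (Finset.union_subset hF1 hF3))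
      omega
    · intro x hx y
      rw [hK3b x hx y]
      refine hK2b x ?_ y
      rw [Finset.mem_union, not_or]
      exact ⟨fun h => hx (hWY h), fun h => hx (hCY' x h)⟩
    · intro j' hj'
      have h2 := hK3n j' hj'
      have h3 := (step he0 hne hc h2).2 hbr
      have h4 := hK1n _ h3
      rwa [show j' + (i1 + i3 + 1) = j' + i3 + 1 + i1 by ring]

end Pool.Agent.Q195.CS
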