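import Mathlib

/-!
Cube complexes of a family of subgroups `A e` of an abelian group, with the sign
`(-1)^#{f ∈ F : f < e}`.
-/

set_option linter.unusedSectionVars false
set_option linter.unusedVariables false

namespace Pool.Agent.Q195.CS

open Finset

variable {ι : Type*} [Fintype ι] [LinearOrder ι] {M : Type*} [AddCommGroup M]

/-- the sign -/
def sg (e : ι) (F : Finset ι) : ℤ := (-1) ^ (F.filter (· < e)).card

/-- the differential -/
def dd (z : Finset ι → M) : Finset ι → M := fun F => ∑ e ∈ Fᶜ, sg e F • z (insert e F)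

/-- chains of degree `k` of the pair `(K, E)` -/
structure IsCh (A : ι → AddSubgroup M) (K E : Finset ι) (k : ℤ) (z : Finset ι → M) : Prop where
  supp : ∀ F, z F ≠ 0 → F ⊆ E ∧ (F.card : ℤ) = k
  mem : ∀ F, ∀ e ∈ K ∪ F, z F ∈ A e

/-- the homology of the pair `(K, E)` vanishes in degree `k` -/
def Van (A : ι → AddSubgroup M) (K E : Finset ι) (k : ℤ) : Prop :=
  ∀ z, IsCh A K E k z → dd z = 0 → ∃ y, IsCh A K E (k + 1) y ∧ dd y = z

lemma sg_mul_self (e : ι) (F : Finset ι) : sg e F * sg e F = 1 := by
  unfold sg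
  rw [← mul_pow]; simp

lemma sg_insert (e f : ι) (F : Finset ι) (hf : f ∉ F) :
    sg e (insert f F) = if f < e then - sg e F else sg e F := by
  unfold sg
  rw [Finset.filter_insert]
  split_ifs with h
  · rw [Finset.card_insert_of_notMem (by simp [hf])]
    rw [pow_succ]; ring
  · rfl

lemma sg_swap (e f : ι) (F : Finset ι) (he : e ∉ F) (hf : f ∉ F) (hef : e ≠ f) :
    sg f (insert e F) * sg e (insert f F) = - (sg e F * sg f F) := by
  rw [sg_insert f e F he, sg_insert e f F hf]
  rcases lt_or_gt_of_ne hef with h | h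
  · rw [if_pos h, if_neg (not_lt.2 h.le)]; ring
  · rw [if_neg (not_lt.2 h.le), if_pos h]; ring

lemma dd_add (x y : Finset ι → M) : dd (x + y) = dd x + dd y := by
  funext F
  simp [dd, smul_add, Finset.sum_add_distrib]

lemma dd_neg (x : Finset ι → M) : dd (-x) = - dd x := by
  funext F
  simp [dd]

lemma dd_sub (x y : Finset ι → M) : dd (x - y) = dd x - dd y := by
  rw [sub_eq_add_neg, dd_add, dd_neg, sub_eq_add_neg]

lemma dd_zero : dd (0 : Finset ι → M) = 0 := by
  funext F
  simp [dd]

lemma dd_map {M' : Type*} [AddCommGroup M'] (T : M →+ M') (x : Finset ι → M) :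
    dd (fun F => T (x F)) = fun F => T (dd x F) := by
  funext F
  simp [dd, map_sum, map_zsmul]

/-- assemble a chain from its parts without and with `e` -/
def comb (e : ι) (x y : Finset ι → M) : Finset ι → M :=
  fun F => if e ∈ F then sg e (F.erase e) • y (F.erase e) else x F

/-- `z` has no component on sets containing `e` -/
def Off (e : ι) (z : Finset ι → M) : Prop := ∀ F, e ∈ F → z F = 0

lemma dd_comb (e : ι) (x y : Finset ι → M) (hx : Off e x) (hy : Off e y) :
    dd (comb e x y) = comb e (dd x + y) (- dd y) := by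
  funext F
  by_cases heF : e ∈ F
  · have hF : F = insert e (F.erase e) := (Finset.insert_erase heF).symm
    set F0 := F.erase e with hF0
    have he0 : e ∉ F0 := by rw [hF0]; simp
    have h2 : dd y F0 = ∑ f ∈ Fᶜ, sg f F0 • y (insert f F0) := by
      unfold dd
      have h3 : F0ᶜ = insert e Fᶜ := by
        ext f
        simp only [Finset.mem_compl, Finset.mem_insert, hF0, Finset.mem_erase]
        by_cases hfe : f = e
        · simp [hfe]
        · simp [hfe]
      rw [h3, Finset.sum_insert (by simp [heF])]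
      rw [hy (insert e F0) (by simp)]
      simp
    have h1 : comb e (dd x + y) (- dd y) F = sg e F0 • (- dd y F0) := by
      unfold comb; rw [if_pos heF]; rfl
    rw [h1, h2]
    unfold dd
    rw [← Finset.sum_neg_distrib, Finset.smul_sum]
    refine Finset.sum_congr rfl fun f hf => ?_
    have hfF : f ∉ F := by simpa using hf
    have hfe : f ≠ e := fun h => hfF (h ▸ heF)
    have hf0 : f ∉ F0 := fun h => hfF (Finset.mem_of_mem_erase h)
    have h4 : (insert f F).erase e = insert f F0 := by
      rw [Finset.erase_insert_of_ne hfe]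
    unfold comb
    rw [if_pos (Finset.mem_insert_of_mem heF), h4]
    have h5 := sg_swap e f F0 he0 hf0 (Ne.symm hfe)
    rw [← hF] at h5
    rw [smul_smul, h5, neg_smul, smul_neg, smul_smul]
  · have h1 : comb e (dd x + y) (- dd y) F = dd x F + y F := by
      unfold comb; rw [if_neg heF]; rfl
    rw [h1]
    unfold dd
    have he' : e ∈ Fᶜ := by simpa using heF
    rw [← Finset.add_sum_erase _ _ he', ← Finset.add_sum_erase (Fᶜ) (fun f => sg f F • x (insert f F)) he']
    rw [hx (insert e F) (by simp)]
    have h2 : sg e F • comb e x y (insert e F) = y F := by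
      unfold comb
      rw [if_pos (by simp), Finset.erase_insert heF, smul_smul, sg_mul_self, one_smul]
    rw [h2, smul_zero, zero_add, add_comm]
    congr 1
    refine Finset.sum_congr rfl fun f hf => ?_
    have hfe : f ≠ e := (Finset.mem_erase.1 hf).1
    unfold comb
    rw [if_neg]
    intro h
    rcases Finset.mem_insert.1 h with h | h
    · exact hfe h.symm
    · exact heF h

/-- the part without `e` -/
def pX (e : ι) (z : Finset ι → M) : Finset ι → M := fun F => if e ∈ F then 0 else z F

/-- the part with `e` -/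
def pY (e : ι) (z : Finset ι → M) : Finset ι → M :=
  fun F => if e ∈ F then 0 else sg e F • z (insert e F)

lemma off_pX (e : ι) (z : Finset ι → M) : Off e (pX e z) := fun F h => by simp [pX, h]
lemma off_pY (e : ι) (z : Finset ι → M) : Off e (pY e z) := fun F h => by simp [pY, h]

lemma comb_eq (e : ι) (z : Finset ι → M) : comb e (pX e z) (pY e z) = z := by
  funext F
  unfold comb
  split_ifs with h
  · unfold pY
    rw [if_neg (by simp), Finset.insert_erase h, smul_smul, sg_mul_self, one_smul]
  · unfold pX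
    rw [if_neg h]

lemma comb_inj {e : ι} {x y x' y' : Finset ι → M} (hx : Off e x) (hy : Off e y) (hx' : Off e x')
    (hy' : Off e y') (h : comb e x y = comb e x' y') : x = x' ∧ y = y' := by
  constructor
  · funext F
    by_cases heF : e ∈ F
    · rw [hx F heF, hx' F heF]
    · have := congrFun h F
      unfold comb at this
      rwa [if_neg heF, if_neg heF] at this
  · funext F
    by_cases heF : e ∈ F
    · rw [hy F heF, hy' F heF]
    · have := congrFun h (insert e F)
      unfold comb at this
      rw [if_pos (by simp), if_pos (by simp), Finset.erase_insert heF] at this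
      have h2 := congrArg (fun m => sg e F • m) this
      simp only [smul_smul, sg_mul_self, one_smul] at h2
      exact h2

lemma off_dd {e : ι} {x : Finset ι → M} (hx : Off e x) : Off e (dd x) := by
  intro F hF
  unfold dd
  exact Finset.sum_eq_zero fun f _ => by rw [hx _ (Finset.mem_insert_of_mem hF), smul_zero]

lemma off_add {e : ι} {x y : Finset ι → M} (hx : Off e x) (hy : Off e y) : Off e (x + y) :=
  fun F hF => by simp [hx F hF, hy F hF]

lemma off_neg {e : ι} {x : Finset ι → M} (hx : Off e x) : Off e (-x) :=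
  fun F hF => by simp [hx F hF]

lemma off_zero {e : ι} : Off e (0 : Finset ι → M) := fun _ _ => rfl

variable {A : ι → AddSubgroup M} {K E : Finset ι} {k : ℤ}

lemma IsCh.off {z : Finset ι → M} {e : ι} (h : IsCh A K (E.erase e) k z) : Off e z := by
  intro F hF
  by_contra hz
  have := (h.supp F hz).1 hF
  simp at this

lemma IsCh.zero : IsCh A K E k (0 : Finset ι → M) :=
  ⟨fun F h => absurd rfl h, fun F e _ => (A e).zero_mem⟩

lemma IsCh.add {x y : Finset ι → M} (hx : IsCh A K E k x) (hy : IsCh A K E k y) :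
    IsCh A K E k (x + y) := by
  refine ⟨fun F h => ?_, fun F e he => (A e).add_mem (hx.mem F e he) (hy.mem F e he)⟩
  by_cases h1 : x F = 0
  · by_cases h2 : y F = 0
    · simp [h1, h2] at h
    · exact hy.supp F h2
  · exact hx.supp F h1

lemma IsCh.neg {x : Finset ι → M} (hx : IsCh A K E k x) : IsCh A K E k (-x) :=
  ⟨fun F h => hx.supp F (by simpa using h), fun F e he => (A e).neg_mem (hx.mem F e he)⟩

lemma IsCh.sub {x y : Finset ι → M} (hx : IsCh A K E k x) (hy : IsCh A K E k y) :
    IsCh A K E k (x - y) := by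
  rw [sub_eq_add_neg]; exact hx.add hy.neg

lemma IsCh.dd {z : Finset ι → M} (hz : IsCh A K E k z) : IsCh A K E (k - 1) (dd z) := by
  constructor
  · intro F hF
    unfold CS.dd at hF
    obtain ⟨e, he, h⟩ := Finset.exists_ne_zero_of_sum_ne_zero hF
    have hz' : z (insert e F) ≠ 0 := fun h0 => h (by rw [h0, smul_zero])
    obtain ⟨h1, h2⟩ := hz.supp _ hz'
    refine ⟨fun f hf => h1 (Finset.mem_insert_of_mem hf), ?_⟩
    rw [Finset.card_insert_of_notMem (by simpa using he)] at h2
    push_cast at h2
    omega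
  · intro F e he
    unfold CS.dd
    refine (A e).sum_mem fun f hf => (A e).zsmul_mem (hz.mem _ e ?_) _
    rcases Finset.mem_union.1 he with h | h
    · exact Finset.mem_union_left _ h
    · exact Finset.mem_union_right _ (Finset.mem_insert_of_mem h)

lemma IsCh.mono_E {z : Finset ι → M} {E' : Finset ι} (h : E ⊆ E') (hz : IsCh A K E k z) :
    IsCh A K E' k z :=
  ⟨fun F hF => ⟨(hz.supp F hF).1.trans h, (hz.supp F hF).2⟩, hz.mem⟩

lemma IsCh.mono_K {z : Finset ι → M} {K' : Finset ι} (h : K' ⊆ K) (hz : IsCh A K E k z) :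
    IsCh A K' E k z :=
  ⟨hz.supp, fun F e he => hz.mem F e (by
    rcases Finset.mem_union.1 he with h' | h'
    · exact Finset.mem_union_left _ (h h')
    · exact Finset.mem_union_right _ h')⟩

lemma IsCh.insK {z : Finset ι → M} {e : ι} (hz : IsCh A K E k z) (h : ∀ F, z F ∈ A e) :
    IsCh A (insert e K) E k z :=
  ⟨hz.supp, fun F f hf => by
    rw [Finset.insert_union] at hf
    rcases Finset.mem_insert.1 hf with h' | h'
    · rw [h']; exact h F
    · exact hz.mem F f h'⟩

lemma isCh_pX {e : ι} {z : Finset ι → M} (hz : IsCh A K E k z) :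
    IsCh A K (E.erase e) k (pX e z) := by
  constructor
  · intro F hF
    unfold pX at hF
    split_ifs at hF with h
    · exact absurd rfl hF
    · exact ⟨Finset.subset_erase.2 ⟨(hz.supp F hF).1, h⟩, (hz.supp F hF).2⟩
  · intro F f hf
    unfold pX
    split_ifs
    · exact (A f).zero_mem
    · exact hz.mem F f hf

lemma isCh_pY {e : ι} {z : Finset ι → M} (hz : IsCh A K E k z) :
    IsCh A (insert e K) (E.erase e) (k - 1) (pY e z) := by
  constructor
  · intro F hF
    unfold pY at hF
    split_ifs at hF with h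
    · exact absurd rfl hF
    · have hz' : z (insert e F) ≠ 0 := fun h0 => hF (by rw [h0, smul_zero])
      obtain ⟨h1, h2⟩ := hz.supp _ hz'
      refine ⟨Finset.subset_erase.2 ⟨fun f hf => h1 (Finset.mem_insert_of_mem hf), h⟩, ?_⟩
      rw [Finset.card_insert_of_notMem h] at h2
      push_cast at h2
      omega
  · intro F f hf
    unfold pY
    split_ifs
    · exact (A f).zero_mem
    · refine (A f).zsmul_mem (hz.mem _ f ?_) _
      simp only [Finset.mem_union, Finset.mem_insert] at hf ⊢
      tauto

lemma isCh_comb {e : ι} (he : e ∈ E) {x y : Finset ι → M} (hx : IsCh A K (E.erase e) (k + 1) x)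
    (hy : IsCh A (insert e K) (E.erase e) k y) : IsCh A K E (k + 1) (comb e x y) := by
  constructor
  · intro F hF
    unfold comb at hF
    split_ifs at hF with h
    · have hy' : y (F.erase e) ≠ 0 := fun h0 => hF (by rw [h0, smul_zero])
      obtain ⟨h1, h2⟩ := hy.supp _ hy'
      constructor
      · intro f hf
        by_cases hfe : f = e
        · rw [hfe]; exact he
        · exact Finset.mem_of_mem_erase (h1 (Finset.mem_erase.2 ⟨hfe, hf⟩))
      · rw [← h2, Finset.card_erase_of_mem h]
        have : 1 ≤ F.card := Finset.card_pos.2 ⟨e, h⟩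
        push_cast [Nat.cast_sub this]
        ring
    · exact ⟨(hx.supp F hF).1.trans (Finset.erase_subset _ _), (hx.supp F hF).2⟩
  · intro F f hf
    unfold comb
    split_ifs with h
    · refine (A f).zsmul_mem (hy.mem _ f ?_) _
      simp only [Finset.mem_union, Finset.mem_insert, Finset.mem_erase] at hf ⊢
      tauto
    · exact hx.mem F f hf

/-- the two equations of a cycle -/
lemma cycle_parts {e : ι} {z : Finset ι → M} (h : dd z = 0) :
    pY e z = - dd (pX e z) ∧ dd (pY e z) = 0 := by
  have h1 := dd_comb e (pX e z) (pY e z) (off_pX e z) (off_pY e z)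
  rw [comb_eq, h] at h1
  have h0 : (0 : Finset ι → M) = comb e 0 0 := by
    funext F; simp [comb]
  rw [h0] at h1
  obtain ⟨h2, h3⟩ := comb_inj off_zero off_zero
    (off_add (off_dd (off_pX e z)) (off_pY e z)) (off_neg (off_dd (off_pY e z))) h1
  constructor
  · exact eq_neg_of_add_eq_zero_right h2.symm
  · have := h3.symm
    simpa using this

/-- deletion and contraction -/
theorem van_delcon {e : ι} (he : e ∈ E) (h1 : Van A K (E.erase e) k)
    (h2 : Van A (insert e K) (E.erase e) (k - 1)) : Van A K E k := by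
  intro z hz hdz
  obtain ⟨hy, hdy⟩ := cycle_parts (e := e) hdz
  obtain ⟨y1, hy1, hdy1⟩ := h2 _ (isCh_pY hz) hdy
  rw [sub_add_cancel] at hy1
  have hx : IsCh A K (E.erase e) k (pX e z + y1) :=
    (isCh_pX hz).add (hy1.mono_K (Finset.subset_insert _ _))
  have hdx : dd (pX e z + y1) = 0 := by
    rw [dd_add, hdy1, hy]; simp
  obtain ⟨x1, hx1, hdx1⟩ := h1 _ hx hdx
  refine ⟨comb e x1 (-y1), isCh_comb he hx1 hy1.neg, ?_⟩
  rw [dd_comb e _ _ hx1.off (off_neg hy1.off), hdx1, dd_neg, hdy1]
  rw [show pX e z + y1 + -y1 = pX e z by abel, neg_neg, comb_eq]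

/-- a loop makes the complex acyclic -/
theorem van_loop {e : ι} (he : e ∈ E) (h : ∀ m : M, (∀ f ∈ K, m ∈ A f) → m ∈ A e) :
    Van A K E k := by
  intro z hz hdz
  obtain ⟨hy, hdy⟩ := cycle_parts (e := e) hdz
  have hx : IsCh A (insert e K) (E.erase e) k (pX e z) :=
    (isCh_pX hz).insK fun F => h _ fun f hf => (isCh_pX hz).mem F f (Finset.mem_union_left _ hf)
  refine ⟨comb e 0 (pX e z), isCh_comb he IsCh.zero hx, ?_⟩
  rw [dd_comb e _ _ off_zero hx.off, dd_zero, zero_add, ← hy, comb_eq]

/-- adding a parallel edge keeps a nonzero class -/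
theorem nonvan_parallel {e f : ι} (he : e ∈ E) (hf : f ∈ E) (hef : e ≠ f)
    (h : ∀ m : M, (∀ g ∈ insert f K, m ∈ A g) → m ∈ A e)
    (hn : ¬ Van A K (E.erase f) k) : ¬ Van A K E k := by
  intro hv
  apply hn
  intro z hz hdz
  obtain ⟨y, hy, hdy⟩ := hv z (hz.mono_E (Finset.erase_subset _ _)) hdz
  have h1 := dd_comb f (pX f y) (pY f y) (off_pX f y) (off_pY f y)
  rw [comb_eq, hdy] at h1
  have h0 : z = comb f z 0 := by
    funext F
    unfold comb
    split_ifs with hF
    · rw [hz.off F hF]; simp
    · rfl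
  rw [h0] at h1
  obtain ⟨h2, h3⟩ := comb_inj hz.off off_zero
    (off_add (off_dd (off_pX f y)) (off_pY f y)) (off_neg (off_dd (off_pY f y))) h1
  have h4 : dd (pY f y) = 0 := by simpa using h3.symm
  have h5 : IsCh A (insert f K) (E.erase f) k (pY f y) := by
    have := isCh_pY (e := f) hy
    rwa [add_sub_cancel_right] at this
  obtain ⟨w, hw, hdw⟩ := van_loop (k := k) (Finset.mem_erase.2 ⟨hef, he⟩) h _ h5 h4
  refine ⟨pX f y + w, (isCh_pX hy).add (hw.mono_K (Finset.subset_insert _ _)), ?_⟩
  rw [dd_add, hdw, ← h2]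

/-- a nonzero class of the contraction lifts if the deletion has no homology one step below -/
theorem nonvan_lift {e : ι} (he : e ∈ E) (h1 : Van A K (E.erase e) k)
    (hn : ¬ Van A (insert e K) (E.erase e) k) : ¬ Van A K E (k + 1) := by
  intro hv
  apply hn
  intro z hz hdz
  obtain ⟨y, hy, hdy⟩ := h1 z (hz.mono_K (Finset.subset_insert _ _)) hdz
  have hc : IsCh A K E (k + 1) (comb e y (-z)) := isCh_comb he hy hz.neg
  have hd : dd (comb e y (-z)) = 0 := by
    rw [dd_comb e _ _ hy.off (off_neg hz.off), hdy, dd_neg, hdz]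
    funext F; simp [comb]
  obtain ⟨w, hw, hdw⟩ := hv _ hc hd
  have h2 := dd_comb e (pX e w) (pY e w) (off_pX e w) (off_pY e w)
  rw [comb_eq, hdw] at h2
  obtain ⟨-, h4⟩ := comb_inj hy.off (off_neg hz.off)
    (off_add (off_dd (off_pX e w)) (off_pY e w)) (off_neg (off_dd (off_pY e w))) h2
  refine ⟨pY e w, ?_, ?_⟩
  · have := isCh_pY (e := e) hw
    rwa [add_sub_cancel_right] at this
  · have h5 := congrArg (fun t => -t) h4
    simp only [neg_neg] at h5
    exact h5.symm

end Pool.Agent.Q195.CS
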