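import Pool.Agent.Q195.CS.Cube

/-!
Alternating forms on `V → ℚ` that vanish when one argument is a given vector.
-/

set_option linter.unusedSectionVars false
set_option linter.unusedVariables false

namespace Pool.Agent.Q195.CS

open Finset

variable {V : Type*} [Fintype V] [DecidableEq V]

/-- alternating forms of degree `j` on `V → ℚ` -/
abbrev Frm (V : Type*) (j : ℕ) := (V → ℚ) [⋀^Fin j]→ₗ[ℚ] ℚ

/-- forms that vanish as soon as one argument is `l` -/
def nul (j : ℕ) (l : V → ℚ) : AddSubgroup (Frm V j) where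
  carrier := {φ | ∀ w : Fin j → (V → ℚ), ∀ i, w i = l → φ w = 0}
  add_mem' := fun {a b} ha hb w i h => by
    rw [AlternatingMap.add_apply, ha w i h, hb w i h, add_zero]
  zero_mem' := fun w i h => rfl
  neg_mem' := fun {a} ha w i h => by
    rw [AlternatingMap.neg_apply, ha w i h, neg_zero]

lemma mem_nul {j : ℕ} {l : V → ℚ} {φ : Frm V j} :
    φ ∈ nul j l ↔ ∀ w : Fin j → (V → ℚ), ∀ i, w i = l → φ w = 0 := Iff.rfl

lemma nul_add {j : ℕ} {l1 l2 : V → ℚ} {φ : Frm V j} (h1 : φ ∈ nul j l1) (h2 : φ ∈ nul j l2) :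
    φ ∈ nul j (l1 + l2) := by
  intro w i h
  have hw : w = Function.update w i (l1 + l2) := by rw [← h]; simp
  rw [hw, φ.map_update_add, h1 _ i (by simp), h2 _ i (by simp), add_zero]

lemma nul_neg {j : ℕ} {l : V → ℚ} {φ : Frm V j} (h1 : φ ∈ nul j l) : φ ∈ nul j (-l) := by
  intro w i h
  have hw : w = Function.update w i (-l) := by rw [← h]; simp
  rw [hw, φ.map_update_neg, h1 _ i (by simp), neg_zero]

lemma nul_zero {j : ℕ} {φ : Frm V j} : φ ∈ nul j (0 : V → ℚ) := by
  intro w i h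
  exact φ.map_coord_zero i h

lemma nul_deg_zero (l : V → ℚ) (φ : Frm V 0) : φ ∈ nul 0 l := fun w i => i.elim0

/-- contraction with `l` -/
def cL (j : ℕ) (l : V → ℚ) : Frm V (j + 1) →+ Frm V j where
  toFun φ := φ.curryLeft l
  map_zero' := by simp
  map_add' a b := by simp

/-- wedge with `u` -/
def wd (j : ℕ) (u : (V → ℚ) →ₗ[ℚ] ℚ) : Frm V j →+ Frm V (j + 1) where
  toFun φ := AlternatingMap.alternatizeUncurryFin (u.smulRight φ)
  map_zero' := by
    ext w
    simp [AlternatingMap.alternatizeUncurryFin_apply]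
  map_add' a b := by
    ext w
    simp [AlternatingMap.alternatizeUncurryFin_apply, Finset.sum_add_distrib, mul_add]

lemma cL_apply (j : ℕ) (l : V → ℚ) (φ : Frm V (j + 1)) (w : Fin j → (V → ℚ)) :
    cL j l φ w = φ (Matrix.vecCons l w) := rfl

lemma wd_apply (j : ℕ) (u : (V → ℚ) →ₗ[ℚ] ℚ) (φ : Frm V j) (w : Fin (j + 1) → (V → ℚ)) :
    wd j u φ w = ∑ i : Fin (j + 1), (-1) ^ (i : ℕ) • (u (w i) * φ (Fin.removeNth i w)) := by
  show AlternatingMap.alternatizeUncurryFin (u.smulRight φ) w = _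
  rw [AlternatingMap.alternatizeUncurryFin_apply]
  simp

lemma cL_mem {j : ℕ} {l l' : V → ℚ} {φ : Frm V (j + 1)} (h : φ ∈ nul (j + 1) l') :
    cL j l φ ∈ nul j l' := by
  intro w i hi
  rw [cL_apply]
  exact h _ i.succ (by simpa using hi)

lemma cL_self {j : ℕ} {l : V → ℚ} (φ : Frm V (j + 1)) : cL j l φ ∈ nul j l := by
  intro w i hi
  rw [cL_apply]
  refine φ.map_eq_zero_of_eq _ (i := 0) (j := i.succ) ?_ (Fin.succ_ne_zero i).symm
  simp [hi]

lemma mem_nul_of_cL {j : ℕ} {l : V → ℚ} {φ : Frm V (j + 1)} (h : cL j l φ = 0) :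
    φ ∈ nul (j + 1) l := by
  have h0 : ∀ w : Fin (j + 1) → (V → ℚ), w 0 = l → φ w = 0 := by
    intro w hw
    have h1 : w = Matrix.vecCons l (fun i => w i.succ) := by
      funext i
      refine Fin.cases ?_ (fun i => ?_) i
      · simp [hw]
      · simp
    rw [h1, ← cL_apply, h]; rfl
  intro w i hi
  by_cases hi0 : i = 0
  · subst hi0; exact h0 w hi
  · have h1 := φ.map_swap w (i := 0) (j := i) (Ne.symm hi0)
    have h2 : φ (w ∘ Equiv.swap 0 i) = 0 := h0 _ (by simp [hi])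
    rw [h2] at h1
    exact neg_eq_zero.1 h1.symm

lemma wd_mem {j : ℕ} {l : V → ℚ} {u : (V → ℚ) →ₗ[ℚ] ℚ} {φ : Frm V j} (h : φ ∈ nul j l)
    (hu : u l = 0) : wd j u φ ∈ nul (j + 1) l := by
  intro w i hi
  rw [wd_apply]
  refine Finset.sum_eq_zero fun m _ => ?_
  by_cases hm : m = i
  · subst hm; rw [hi, hu]; simp
  · obtain ⟨i', hi'⟩ := Fin.exists_succAbove_eq (Ne.symm hm)
    have : φ (Fin.removeNth m w) = 0 := by
      refine h _ i' ?_
      show w (m.succAbove i') = l
      rw [hi', hi]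
    rw [this]; simp

lemma cL_wd {j : ℕ} {l : V → ℚ} {u : (V → ℚ) →ₗ[ℚ] ℚ} {φ : Frm V j} (h : φ ∈ nul j l)
    (hu : u l = 1) : cL j l (wd j u φ) = φ := by
  ext w
  rw [cL_apply, wd_apply, Fin.sum_univ_succ]
  have h2 : ∀ i : Fin j, (-1 : ℤ) ^ ((i.succ : Fin (j+1)) : ℕ) •
      (u (Matrix.vecCons l w i.succ) * φ (Fin.removeNth i.succ (Matrix.vecCons l w))) = 0 := by
    intro i
    have : φ (Fin.removeNth i.succ (Matrix.vecCons l w)) = 0 := by
      have hj : j ≠ 0 := by rintro rfl; exact i.elim0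
      obtain ⟨j', rfl⟩ := Nat.exists_eq_succ_of_ne_zero hj
      refine h _ 0 ?_
      show Matrix.vecCons l w ((i.succ).succAbove 0) = l
      rw [Fin.succAbove_ne_zero_zero (Fin.succ_ne_zero i)]
      simp
    rw [this]; simp
  have h3 : (Fin.removeNth 0 (Matrix.vecCons l w) : Fin j → (V → ℚ)) = w := by
    funext i
    show Matrix.vecCons l w ((0 : Fin (j+1)).succAbove i) = w i
    simp
  rw [Finset.sum_eq_zero (fun i _ => by simpa using h2 i), h3]
  simp [hu]

/-- the difference of two basis vectors -/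
def dv (u v : V) : V → ℚ := Pi.single v 1 - Pi.single u 1

/-- the graph of a set of edges -/
def gr {ι : Type*} (a b : ι → V) (S : Finset ι) : SimpleGraph V :=
  SimpleGraph.fromRel (fun u v => ∃ e ∈ S, a e = u ∧ b e = v)

lemma gr_mono {ι : Type*} {a b : ι → V} {S T : Finset ι} (h : S ⊆ T) : gr a b S ≤ gr a b T := by
  intro u v huv
  unfold gr at *
  rw [SimpleGraph.fromRel_adj] at *
  refine ⟨huv.1, huv.2.imp ?_ ?_⟩ <;> rintro ⟨e, he, h1⟩ <;> exact ⟨e, h he, h1⟩

lemma gr_reach_edge {ι : Type*} {a b : ι → V} {S : Finset ι} {e : ι} (he : e ∈ S) :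
    (gr a b S).Reachable (a e) (b e) := by
  by_cases h : a e = b e
  · rw [h]
  · refine SimpleGraph.Adj.reachable ?_
    unfold gr
    rw [SimpleGraph.fromRel_adj]
    exact ⟨h, Or.inl ⟨e, he, rfl, rfl⟩⟩

/-- an equivalence relation containing the edges of `S` contains reachability -/
lemma gr_reach_le {ι : Type*} {a b : ι → V} {S : Finset ι} (r : V → V → Prop)
    (h0 : ∀ x, r x x) (h1 : ∀ x y, r x y → r y x) (h2 : ∀ x y z, r x y → r y z → r x z)
    (h : ∀ e ∈ S, r (a e) (b e)) {u v : V} (huv : (gr a b S).Reachable u v) : r u v := by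
  rw [SimpleGraph.reachable_iff_reflTransGen] at huv
  induction huv with
  | refl => exact h0 _
  | tail _ hcd ih =>
    refine h2 _ _ _ ih ?_
    unfold gr at hcd
    rw [SimpleGraph.fromRel_adj] at hcd
    obtain ⟨-, ⟨e, he, rfl, rfl⟩ | ⟨e, he, rfl, rfl⟩⟩ := hcd
    · exact h e he
    · exact h1 _ _ (h e he)

lemma nul_reach {ι : Type*} {a b : ι → V} {S : Finset ι} {j : ℕ} {φ : Frm V j}
    (h : ∀ e ∈ S, φ ∈ nul j (dv (a e) (b e))) {u v : V} (huv : (gr a b S).Reachable u v) :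
    φ ∈ nul j (dv u v) := by
  refine gr_reach_le (fun u v => φ ∈ nul j (dv u v)) ?_ ?_ ?_ h huv
  · intro x
    have : dv x x = (0 : V → ℚ) := by simp [dv]
    show φ ∈ nul j (dv x x)
    rw [this]; exact nul_zero
  · intro x y hxy
    have : dv y x = - dv x y := by simp [dv]
    show φ ∈ nul j (dv y x)
    rw [this]; exact nul_neg hxy
  · intro x y z hxy hyz
    have : dv x z = dv x y + dv y z := by simp [dv]
    show φ ∈ nul j (dv x z)
    rw [this]; exact nul_add hxy hyz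

end Pool.Agent.Q195.CS
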