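import Pool.Agent.Q195.CS.Forms

/-!
The complexes of alternating forms: vanishing below the diagonal and nonzero classes on it.
-/

set_option linter.unusedSectionVars false
set_option linter.unusedVariables false

namespace Pool.Agent.Q195.CS

open Finset

variable {V : Type*} [Fintype V] [DecidableEq V] {ι : Type*} [Fintype ι] [LinearOrder ι]

/-- the family of subgroups -/
def AF (a b : ι → V) (j : ℕ) : ι → AddSubgroup (Frm V j) := fun e => nul j (dv (a e) (b e))

lemma cL_eq_zero {j : ℕ} {l : V → ℚ} {φ : Frm V (j + 1)} (h : φ ∈ nul (j + 1) l) :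
    cL j l φ = 0 := by
  ext w
  rw [cL_apply]
  exact h _ 0 (by simp)

/-- connected graphs have at least `n - 1` edges -/
lemma card_le_of_conn [Nonempty V] {a b : ι → V} {K : Finset ι}
    (h : ∀ u v, (gr a b K).Reachable u v) : Fintype.card V ≤ K.card + 1 := by
  have hc : (gr a b K).Connected := ⟨h⟩
  have h1 := hc.card_vert_le_card_edgeSet_add_one
  rw [Nat.card_eq_fintype_card] at h1
  refine h1.trans (Nat.add_le_add_right ?_ 1)
  have h2 : (gr a b K).edgeSet ⊆ ((K.image (fun e => s(a e, b e)) : Finset (Sym2 V)) : Set (Sym2 V)) := by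
    intro x
    induction x with | h u v => ?_
    intro hx
    rw [SimpleGraph.mem_edgeSet] at hx
    unfold gr at hx
    rw [SimpleGraph.fromRel_adj] at hx
    obtain ⟨-, ⟨e, he, rfl, rfl⟩ | ⟨e, he, rfl, rfl⟩⟩ := hx
    · exact Finset.mem_coe.2 (Finset.mem_image.2 ⟨e, he, rfl⟩)
    · exact Finset.mem_coe.2 (Finset.mem_image.2 ⟨e, he, Sym2.eq_swap⟩)
  calc Nat.card (gr a b K).edgeSet ≤ Nat.card ((K.image (fun e => s(a e, b e)) : Finset (Sym2 V)) : Set (Sym2 V)) :=
        Nat.card_mono (Finset.finite_toSet _) h2
    _ = (K.image (fun e => s(a e, b e))).card := by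
        rw [Nat.card_eq_card_toFinset]; simp
    _ ≤ K.card := Finset.card_image_le

open Classical in
/-- the indicator functional of a set -/
noncomputable def ind (P : V → Prop) : (V → ℚ) →ₗ[ℚ] ℚ :=
  ∑ v, if P v then LinearMap.proj v else 0

open Classical in
lemma ind_dv (P : V → Prop) (u v : V) :
    ind P (dv u v) = (if P v then (1 : ℚ) else 0) - (if P u then 1 else 0) := by
  unfold ind dv
  rw [LinearMap.sum_apply]
  have : ∀ x : V, (if P x then (LinearMap.proj x : (V → ℚ) →ₗ[ℚ] ℚ) else 0)
      (Pi.single v 1 - Pi.single u 1) =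
      (if x = v then (if P v then (1 : ℚ) else 0) else 0) -
      (if x = u then (if P u then (1 : ℚ) else 0) else 0) := by
    intro x
    by_cases hP : P x
    · rw [if_pos hP]
      simp only [LinearMap.coe_proj, Function.eval, Pi.sub_apply, Pi.single_apply]
      congr 1
      · split_ifs with h1 h2 h2
        · rfl
        · exact absurd (h1 ▸ hP) h2
        · rfl
      · split_ifs with h1 h2 h2
        · rfl
        · exact absurd (h1 ▸ hP) h2
        · rfl
    · have h1 : (if x = v then (if P v then (1 : ℚ) else 0) else 0) = 0 := by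
        split_ifs with h1 h2
        · exact absurd (h1 ▸ h2) hP
        · rfl
        · rfl
      have h2 : (if x = u then (if P u then (1 : ℚ) else 0) else 0) = 0 := by
        split_ifs with h1 h2
        · exact absurd (h1 ▸ h2) hP
        · rfl
        · rfl
      rw [h1, h2, if_neg hP, sub_zero]
      rfl
  rw [Finset.sum_congr rfl (fun x _ => this x), Finset.sum_sub_distrib]
  simp

variable {a b : ι → V}

/-- the functional of a bridge -/
lemma bridge_fun {S : Finset ι} {s t : V} (h : ¬ (gr a b S).Reachable s t) :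
    ∃ u : (V → ℚ) →ₗ[ℚ] ℚ, u (dv s t) = 1 ∧ ∀ f ∈ S, u (dv (a f) (b f)) = 0 := by
  classical
  refine ⟨ind (fun v => (gr a b S).Reachable t v), ?_, ?_⟩
  · rw [ind_dv, if_pos (SimpleGraph.Reachable.refl _), if_neg (fun h' => h h'.symm)]
    simp
  · intro f hf
    rw [ind_dv]
    have h1 := gr_reach_edge (a := a) (b := b) hf
    by_cases h2 : (gr a b S).Reachable t (a f)
    · rw [if_pos h2, if_pos (h2.trans h1)]; simp
    · rw [if_neg h2, if_neg (fun h3 => h2 (h3.trans h1.symm))]; simp

lemma isCh_cL {j : ℕ} {K E : Finset ι} {k : ℤ} {e : ι} {x : Finset ι → Frm V (j + 1)}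
    (hx : IsCh (AF a b (j + 1)) K E k x) :
    IsCh (AF a b j) (insert e K) E k (fun F => cL j (dv (a e) (b e)) (x F)) := by
  refine IsCh.insK ⟨fun F hF => hx.supp F fun h0 => hF (by rw [h0, map_zero]), ?_⟩ ?_
  · intro F f hf
    exact cL_mem (hx.mem F f hf)
  · intro F
    exact cL_self _

lemma isCh_wd {j : ℕ} {K E : Finset ι} {k : ℤ} {u : (V → ℚ) →ₗ[ℚ] ℚ}
    {x : Finset ι → Frm V j} (hx : IsCh (AF a b j) K E k x)
    (hu : ∀ f ∈ K ∪ E, u (dv (a f) (b f)) = 0) :
    IsCh (AF a b (j + 1)) K E k (fun F => wd j u (x F)) := by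
  refine ⟨fun F hF => hx.supp F fun h0 => hF (by rw [h0, map_zero]), ?_⟩
  intro F f hf
  by_cases h0 : x F = 0
  · rw [h0, map_zero]; exact AddSubgroup.zero_mem _
  · refine wd_mem (hx.mem F f hf) (hu f ?_)
    rcases Finset.mem_union.1 hf with h | h
    · exact Finset.mem_union_left _ h
    · exact Finset.mem_union_right _ ((hx.supp F h0).1 h)

/-- connectedness is kept when a non-bridge is removed -/
lemma conn_erase {K E : Finset ι} {e : ι}
    (h : ∀ u v, (gr a b (K ∪ E)).Reachable u v)
    (h1 : (gr a b (K ∪ E.erase e)).Reachable (a e) (b e)) :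
    ∀ u v, (gr a b (K ∪ E.erase e)).Reachable u v := by
  intro u v
  refine gr_reach_le (fun u v => (gr a b (K ∪ E.erase e)).Reachable u v)
    (fun x => SimpleGraph.Reachable.refl _) (fun x y hxy => hxy.symm)
    (fun x y z hxy hyz => hxy.trans hyz) ?_ (h u v)
  intro f hf
  by_cases hfe : f = e
  · rw [hfe]; exact h1
  · refine gr_reach_edge ?_
    rcases Finset.mem_union.1 hf with h | h
    · exact Finset.mem_union_left _ h
    · exact Finset.mem_union_right _ (Finset.mem_erase.2 ⟨hfe, h⟩)

lemma insert_union_erase {K E : Finset ι} {e : ι} (he : e ∈ E) :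
    insert e K ∪ E.erase e = K ∪ E := by
  ext f
  simp only [Finset.mem_union, Finset.mem_insert, Finset.mem_erase]
  by_cases h : f = e
  · simp [h, he]
  · simp [h]

theorem low_van : ∀ (m : ℕ) (E K : Finset ι) (j : ℕ) (k : ℤ), E.card = m →
    (∀ u v, (gr a b (K ∪ E)).Reachable u v) →
    k + j + 1 < (Fintype.card V : ℤ) - K.card → Van (AF a b j) K E k := by
  intro m
  induction m with
  | zero =>
    intro E K j k hE hc hk z hz hdz
    have hE' : E = ∅ := Finset.card_eq_zero.1 hE
    subst hE'
    refine ⟨0, IsCh.zero, ?_⟩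
    rw [dd_zero]
    funext F
    by_contra hF
    obtain ⟨h1, h2⟩ := hz.supp F (Ne.symm hF)
    have hF0 : F = ∅ := Finset.subset_empty.1 h1
    rw [hF0] at h2
    simp only [Finset.card_empty, Nat.cast_zero] at h2
    have hV : 0 < Fintype.card V := by
      by_contra h0
      have : Fintype.card V = 0 := by omega
      rw [this] at hk
      push_cast at hk
      omega
    haveI : Nonempty V := Fintype.card_pos_iff.1 hV
    rw [Finset.union_empty] at hc
    have := card_le_of_conn hc
    omega
  | succ m ih =>
    intro E K j k hE hc hk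
    have hne : E.Nonempty := Finset.card_pos.1 (by omega)
    obtain ⟨e, he⟩ := hne
    have hE' : (E.erase e).card = m := by rw [Finset.card_erase_of_mem he]; omega
    by_cases hl : (gr a b K).Reachable (a e) (b e)
    · exact van_loop he fun φ hφ => nul_reach hφ hl
    have heK : e ∉ K := fun h => hl (gr_reach_edge h)
    have hcard : (insert e K).card = K.card + 1 := Finset.card_insert_of_notMem heK
    have hc' : ∀ u v, (gr a b (insert e K ∪ E.erase e)).Reachable u v := by
      rw [insert_union_erase he]; exact hc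
    by_cases hb : (gr a b (K ∪ E.erase e)).Reachable (a e) (b e)
    · refine van_delcon he (ih _ _ _ _ hE' (conn_erase hc hb) hk) (ih _ _ _ _ hE' hc' ?_)
      rw [hcard]; push_cast; omega
    · cases j with
      | zero => exact van_loop he fun φ _ => nul_deg_zero _ φ
      | succ j =>
        obtain ⟨u, hu1, hu0⟩ := bridge_fun hb
        intro z hz hdz
        obtain ⟨hy, hdy⟩ := cycle_parts (e := e) hdz
        have hX := isCh_pX (e := e) hz
        have hY := isCh_pY (e := e) hz
        set l := dv (a e) (b e) with hl'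
        set x := pX e z with hx
        set y := pY e z with hy'
        have hix : IsCh (AF a b j) (insert e K) (E.erase e) k (fun F => cL j l (x F)) :=
          isCh_cL hX
        have hdix : dd (fun F => cL j l (x F)) = 0 := by
          rw [dd_map]
          have h3 : dd x = -y := by rw [hy, neg_neg]
          rw [h3]
          funext F
          show cL j l (-(y F)) = 0
          rw [map_neg, cL_eq_zero (hY.mem F e (by simp)), neg_zero]
        obtain ⟨c, hc1, hc2⟩ := ih _ _ j k hE' hc' (by rw [hcard]; push_cast at hk ⊢; omega) _ hix hdix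
        have hwc : IsCh (AF a b (j + 1)) K (E.erase e) (k + 1) (fun F => wd j u (c F)) :=
          isCh_wd (hc1.mono_K (Finset.subset_insert _ _)) hu0
        have hdwc : dd (fun F => wd j u (c F)) = fun F => wd j u (cL j l (x F)) := by
          rw [dd_map, hc2]
        have hwx : IsCh (AF a b (j + 1)) K (E.erase e) k (fun F => wd j u (cL j l (x F))) := by
          rw [← hdwc]
          have := hwc.dd
          rwa [add_sub_cancel_right] at this
        have hx'0 : IsCh (AF a b (j + 1)) K (E.erase e) k (x - fun F => wd j u (cL j l (x F))) :=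
          hX.sub hwx
        have hx' : IsCh (AF a b (j + 1)) (insert e K) (E.erase e) k
            (x - fun F => wd j u (cL j l (x F))) := by
          refine hx'0.insK fun F => ?_
          refine mem_nul_of_cL ?_
          show cL j l (x F - wd j u (cL j l (x F))) = 0
          rw [map_sub, cL_wd (cL_self _) hu1, sub_self]
        refine ⟨comb e (fun F => wd j u (c F)) (x - fun F => wd j u (cL j l (x F))),
          isCh_comb he hwc hx', ?_⟩
        rw [dd_comb e _ _ hwc.off hx'.off, hdwc]
        have h4 : (fun F => wd j u (cL j l (x F))) + (x - fun F => wd j u (cL j l (x F))) = x := by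
          abel
        have h5 : - dd (x - fun F => wd j u (cL j l (x F))) = y := by
          rw [dd_sub, dd_map (wd j u) (fun F => cL j l (x F)), hdix, hy]
          funext F
          simp
        rw [h4, h5, comb_eq]

/-- contraction of a bridge -/
theorem nonvan_bridge {E K : Finset ι} {e : ι} {j : ℕ} {k : ℤ} (he : e ∈ E)
    (hb : ¬ (gr a b (K ∪ E.erase e)).Reachable (a e) (b e))
    (hn : ¬ Van (AF a b j) (insert e K) (E.erase e) k) : ¬ Van (AF a b (j + 1)) K E k := by
  intro hv
  apply hn
  intro z hz hdz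
  obtain ⟨u, hu1, hu0⟩ := bridge_fun hb
  have hwz : IsCh (AF a b (j + 1)) K (E.erase e) k (fun F => wd j u (z F)) :=
    isCh_wd (hz.mono_K (Finset.subset_insert _ _)) hu0
  have hdwz : dd (fun F => wd j u (z F)) = 0 := by
    rw [dd_map, hdz]; funext F; simp
  obtain ⟨Y, hY, hdY⟩ := hv _ (hwz.mono_E (Finset.erase_subset _ _)) hdwz
  have h1 := dd_comb e (pX e Y) (pY e Y) (off_pX e Y) (off_pY e Y)
  rw [comb_eq, hdY] at h1
  have h0 : (fun F => wd j u (z F)) = comb e (fun F => wd j u (z F)) 0 := by
    funext F
    unfold comb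
    split_ifs with hF
    · rw [hz.off F hF]; simp
    · rfl
  rw [h0] at h1
  obtain ⟨h2, h3⟩ := comb_inj hwz.off off_zero
    (off_add (off_dd (off_pX e Y)) (off_pY e Y)) (off_neg (off_dd (off_pY e Y))) h1
  refine ⟨fun F => cL j (dv (a e) (b e)) (pX e Y F), isCh_cL (isCh_pX hY), ?_⟩
  rw [dd_map]
  funext F
  have h4 : dd (pX e Y) F = wd j u (z F) - pY e Y F := by
    have := congrFun h2 F
    simp only [Pi.add_apply] at this
    rw [this]; abel
  rw [h4, map_sub, cL_wd (hz.mem F e (by simp)) hu1]
  have h5 : pY e Y F ∈ nul (j + 1) (dv (a e) (b e)) :=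
    (isCh_pY (e := e) hY).mem F e (by simp)
  rw [cL_eq_zero h5, sub_zero]

/-- contraction of a non-bridge -/
theorem nonvan_nonbridge {E K : Finset ι} {e : ι} {j : ℕ} {k : ℤ} (he : e ∈ E)
    (hc : ∀ u v, (gr a b (K ∪ E)).Reachable u v)
    (hb : (gr a b (K ∪ E.erase e)).Reachable (a e) (b e))
    (hk : k + j + 1 < (Fintype.card V : ℤ) - K.card)
    (hn : ¬ Van (AF a b j) (insert e K) (E.erase e) k) : ¬ Van (AF a b j) K E (k + 1) :=
  nonvan_lift he (low_van _ _ _ _ _ rfl (conn_erase hc hb) hk) hn

/-- the final state -/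
theorem nonvan_base {K : Finset ι} : ¬ Van (AF a b 0) K ∅ 0 := by
  intro hv
  let o : Frm V 0 := AlternatingMap.constOfIsEmpty ℚ (V → ℚ) (Fin 0) (1 : ℚ)
  have hz : IsCh (AF a b 0) K ∅ 0 (fun F => if F = ∅ then o else 0) := by
    constructor
    · intro F hF
      have : F = ∅ := by
        by_contra h
        exact hF (if_neg h)
      subst this
      simp
    · intro F e _
      exact nul_deg_zero _ _
  have hd : dd (fun F : Finset ι => if F = ∅ then o else 0) = 0 := by
    funext F
    unfold dd
    refine Finset.sum_eq_zero fun e _ => ?_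
    show sg e F • (if insert e F = ∅ then o else 0) = 0
    rw [if_neg (Finset.insert_ne_empty _ _), smul_zero]
  obtain ⟨y, hy, hdy⟩ := hv _ hz hd
  have hy0 : y = 0 := by
    funext F
    by_contra hF
    obtain ⟨h1, h2⟩ := hy.supp F hF
    rw [Finset.subset_empty.1 h1] at h2
    simp at h2
  rw [hy0, dd_zero] at hdy
  have h1 := congrFun hdy ∅
  simp only [Pi.zero_apply, if_true] at h1
  have h2 := congrArg (fun φ : Frm V 0 => φ (fun i => i.elim0)) h1
  simp [o] at h2

end Pool.Agent.Q195.CS
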