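import Pool.Agent.Q195.CS.Transfer

/-!
The two bounds in terms of functions on the symmetric group.
-/

set_option linter.unusedSectionVars false
set_option linter.unusedVariables false

namespace Pool.Agent.Q195.CS

open Finset Equiv

variable {V : Type*} [Fintype V] [DecidableEq V] {ι : Type*} [Fintype ι] [LinearOrder ι]
variable {a b : ι → V}

lemma cut_of_reach {W : Type*} {H : SimpleGraph W} {x y : W} (h : H.Reachable x y)
    (P : W → Prop) (hx : P x) (hy : ¬ P y) : ∃ p q, P p ∧ ¬ P q ∧ H.Adj p q := by
  rw [SimpleGraph.reachable_iff_reflTransGen] at h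
  induction h with
  | refl => exact absurd hx hy
  | tail _ h2 ih =>
    rename_i r s _
    by_cases hr : P r
    · exact ⟨r, s, hr, hy, h2⟩
    · exact ih hr

lemma gr_empty_reach {x y : V} (h : (gr a b ∅).Reachable x y) : y = x := by
  refine gr_reach_le (fun u v => v = u) (fun _ => rfl) (fun _ _ h => h.symm)
    (fun _ _ _ h h' => h'.trans h) ?_ h
  intro e he
  simp at he

theorem low_top [Nonempty V] {E : Finset ι} (hc : ∀ u v, (gr a b E).Reachable u v)
    (hloop : ∀ e ∈ E, a e ≠ b e)
    (BL : Finset (Finset V)) (hBne : ∀ B ∈ BL, B.Nonempty)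
    (hB1 : ∀ u v, (gr a b E).Adj u v → ∃ B ∈ BL, u ∈ B ∧ v ∈ B)
    (hB2 : ∀ B ∈ BL, ∀ w : V, ∀ C : Finset V, (∃ c ∈ B, c ∈ C ∧ c ≠ w) →
      (∃ y ∈ B, y ∉ C ∧ y ≠ w) → ∃ p q, p ∈ C ∧ q ∉ C ∧ q ≠ w ∧ (gr a b E).Adj p q) :
    ∃ i : ℕ, i ≤ BL.card ∧ ¬ Van (AS ℤ a b) ∅ E ((Fintype.card V : ℤ) - 1 - i) := by
  classical
  let r : V := Classical.arbitrary V
  obtain ⟨K', i, hcard, hi, hK'a, -, hn⟩ := rec_main hc BL hBne hB1 hB2 _ Finset.univ {r} r ∅ rfl
    (by simp) (Finset.subset_univ _)
    (by
      intro x hx y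
      rw [Finset.mem_singleton] at hx
      subst hx
      rw [Finset.mem_singleton]
      constructor
      · exact gr_empty_reach
      · intro h; rw [h])
    (fun x _ y h => gr_empty_reach h)
    (by
      intro D hD hDne hDcl
      by_contra hcon
      push Not at hcon
      obtain ⟨d, hd⟩ := hDne
      have hrD : r ∉ D := fun h => by
        have := (Finset.mem_sdiff.1 (hD h)).2
        simp at this
      obtain ⟨p, q, hp, hq, hpq⟩ := cut_of_reach (hc d r) (fun x => x ∈ D) hd hrD
      by_cases hqr : q = r
      · subst hqr; exact hcon p hp hpq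
      · exact hDcl p hp q (by simp [hqr, hq]) hpq)
    (by
      intro p hp hpr
      exact absurd (Finset.mem_singleton.1 hp) hpr)
    (by
      intro y hy z hz
      exact absurd (Finset.mem_univ z) hz)
  have hK'c : K'.card = Fintype.card V - 1 := by
    rw [hcard, Finset.card_empty, zero_add, Finset.card_sdiff_of_subset (Finset.subset_univ _)]
    simp [Finset.card_univ]
  have hpos : 1 ≤ Fintype.card V := Fintype.card_pos
  have hNZ : NZ a b E K' 0 := by
    unfold NZ
    have h1 : EK a b E K' = ∅ := by
      unfold EK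
      rw [Finset.filter_eq_empty_iff]
      intro e _
      rw [not_not]
      exact (hK'a _ (Finset.mem_univ _) _).2 (Finset.mem_univ _)
    have h2 : (Fintype.card V : ℤ) - 1 - K'.card - (0 : ℕ) = 0 := by
      rw [hK'c]; push_cast [Nat.cast_sub hpos]; ring
    rw [h1, h2]
    exact nonvan_base
  have h3 := hn 0 hNZ
  rw [zero_add] at h3
  refine ⟨i, hi.trans (Finset.card_filter_le _ _), ?_⟩
  intro hv
  apply h3
  have h1 : EK a b E ∅ = E := by
    unfold EK
    rw [Finset.filter_true_of_mem]
    intro e he h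
    exact hloop e he (gr_empty_reach h).symm
  rw [h1]
  simp only [Finset.card_empty, Nat.cast_zero, sub_zero]
  exact van_forms i (van_rat hv)

lemma AS_young {R : Type*} [AddCommGroup R] {F : Finset ι} {φ : Perm V → R}
    (hφ : ∀ e ∈ F, φ ∈ AS R a b e) {h : Perm V} (hh : ∀ v, (gr a b F).Reachable v (h v))
    (g : Perm V) : φ (g * h) = φ g := by
  let S : Set (Perm V) := {s | ∃ e ∈ F, a e ≠ b e ∧ s = swap (a e) (b e)}
  let H : Subgroup (Perm V) :=
    { carrier := {h | ∀ g, φ (g * h) = φ g}
      mul_mem' := fun {x y} hx hy g => by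
        rw [← mul_assoc, hy, hx]
      one_mem' := fun g => by rw [mul_one]
      inv_mem' := fun {x} hx g => by
        have := hx (g * x⁻¹)
        rw [inv_mul_cancel_right] at this
        exact this.symm }
  have hSH : Subgroup.closure S ≤ H := by
    rw [Subgroup.closure_le]
    rintro s ⟨e, he, _, rfl⟩
    exact hφ e he
  have hS : ∀ f ∈ S, f.IsSwap := by
    rintro s ⟨e, _, hab, rfl⟩
    exact ⟨a e, b e, hab, rfl⟩
  have hm : h ∈ Subgroup.closure S := by
    rw [mem_closure_isSwap hS]
    refine ⟨Set.toFinite _, fun x => ?_⟩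
    refine gr_reach_le (fun u v => v ∈ MulAction.orbit (Subgroup.closure S) u) ?_ ?_ ?_ ?_ (hh x)
    · intro x; exact MulAction.mem_orbit_self x
    · intro x y hxy
      exact MulAction.mem_orbit_symm.1 hxy
    · intro x y z hxy hyz
      rw [← MulAction.orbit_eq_iff.2 hxy]
      exact hyz
    · intro e he
      by_cases hab : a e = b e
      · rw [hab]; exact MulAction.mem_orbit_self _
      · refine ⟨⟨swap (a e) (b e), Subgroup.subset_closure ⟨e, he, hab, rfl⟩⟩, ?_⟩
        show swap (a e) (b e) (a e) = b e
        exact swap_apply_left _ _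
  exact hSH hm g

lemma reach_swap {F : Finset ι} {u v : V} (h : (gr a b F).Reachable u v) (x : V) :
    (gr a b F).Reachable x (swap u v x) := by
  by_cases h1 : x = u
  · subst h1; rw [swap_apply_left]; exact h
  · by_cases h2 : x = v
    · subst h2; rw [swap_apply_right]; exact h.symm
    · rw [swap_apply_of_ne_of_ne h1 h2]

/-- the number of components -/
noncomputable def nc (a b : ι → V) (K : Finset ι) : ℕ := Nat.card (gr a b K).ConnectedComponent

lemma nc_insert {K : Finset ι} {e : ι} (h : ¬ (gr a b K).Reachable (a e) (b e)) :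
    nc a b (insert e K) < nc a b K := by
  classical
  unfold nc
  let f : (gr a b K).ConnectedComponent → (gr a b (insert e K)).ConnectedComponent :=
    SimpleGraph.ConnectedComponent.map (SimpleGraph.Hom.ofLE (gr_mono (Finset.subset_insert e K)))
  haveI : Fintype (gr a b K).ConnectedComponent := Fintype.ofFinite _
  haveI : Fintype (gr a b (insert e K)).ConnectedComponent := Fintype.ofFinite _
  rw [Nat.card_eq_fintype_card, Nat.card_eq_fintype_card]
  refine Fintype.card_lt_of_surjective_not_injective f ?_ ?_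
  · intro c
    induction c using SimpleGraph.ConnectedComponent.ind with | h v => ?_
    exact ⟨(gr a b K).connectedComponentMk v, rfl⟩
  · intro hinj
    apply h
    have h1 : f ((gr a b K).connectedComponentMk (a e)) =
        f ((gr a b K).connectedComponentMk (b e)) := by
      show (gr a b (insert e K)).connectedComponentMk (a e) =
        (gr a b (insert e K)).connectedComponentMk (b e)
      rw [SimpleGraph.ConnectedComponent.eq]
      exact gr_reach_edge (Finset.mem_insert_self _ _)
    exact SimpleGraph.ConnectedComponent.eq.1 (hinj h1)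

lemma nc_one {K : Finset ι} (h : nc a b K ≤ 1) (u v : V) : (gr a b K).Reachable u v := by
  unfold nc at h
  rw [Finite.card_le_one_iff_subsingleton] at h
  exact SimpleGraph.ConnectedComponent.eq.1 (Subsingleton.elim _ _)

lemma nc_empty : nc a b (∅ : Finset ι) = Fintype.card V := by
  classical
  unfold nc
  rw [← Nat.card_eq_fintype_card]
  symm
  refine Nat.card_congr (Equiv.ofBijective (fun v => (gr a b ∅).connectedComponentMk v) ⟨?_, ?_⟩)
  · intro u v huv
    exact (gr_empty_reach (SimpleGraph.ConnectedComponent.eq.1 huv)).symm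
  · intro c
    induction c using SimpleGraph.ConnectedComponent.ind with | h v => ?_
    exact ⟨v, rfl⟩

variable {M : Type*} [AddCommGroup M] {A : ι → AddSubgroup M}

lemma chain_zero {K E : Finset ι} {k : ℤ} {z : Finset ι → M} (hz : IsCh A K E k z)
    (h : (E.card : ℤ) < k) : z = 0 := by
  funext F
  by_contra hF
  obtain ⟨h1, h2⟩ := hz.supp F hF
  have := Finset.card_le_card h1
  omega

/-- top degree -/
theorem van_top {K E : Finset ι} {k : ℤ} (hE : E.Nonempty) (hk : (E.card : ℤ) ≤ k) :
    Van A K E k := by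
  obtain ⟨e, he⟩ := hE
  intro z hz hdz
  obtain ⟨hy, hdy⟩ := cycle_parts (e := e) hdz
  have hx : pX e z = 0 := by
    refine chain_zero (isCh_pX hz) ?_
    rw [Finset.card_erase_of_mem he]
    have : 1 ≤ E.card := Finset.card_pos.2 ⟨e, he⟩
    push_cast [Nat.cast_sub this]
    omega
  have hz0 : z = 0 := by
    rw [← comb_eq e z, hy, hx, dd_zero]
    funext F; simp [comb]
  exact ⟨0, IsCh.zero, by rw [dd_zero, hz0]⟩

/-- a cycle whose part without `e` lies in `A e` is a boundary -/
theorem bd_of_mem {K E : Finset ι} {k : ℤ} {e : ι} (he : e ∈ E) {z : Finset ι → M}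
    (hz : IsCh A K E k z) (hdz : dd z = 0) (h : ∀ F, pX e z F ∈ A e) :
    ∃ y, IsCh A K E (k + 1) y ∧ dd y = z := by
  obtain ⟨hy, hdy⟩ := cycle_parts (e := e) hdz
  have hx : IsCh A (insert e K) (E.erase e) k (pX e z) := (isCh_pX hz).insK h
  refine ⟨comb e 0 (pX e z), isCh_comb he IsCh.zero hx, ?_⟩
  rw [dd_comb e _ _ off_zero hx.off, dd_zero, zero_add, ← hy, comb_eq]

/-- two edges: no homology in degree one -/
theorem van_two {K : Finset ι} {e f : ι} (hef : e ≠ f) : Van A K {e, f} 1 := by
  intro z hz hdz
  have he : e ∈ ({e, f} : Finset ι) := by simp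
  have hE : ({e, f} : Finset ι).erase e = {f} := by
    rw [Finset.erase_insert (by simpa using hef)]
  obtain ⟨hy, hdy⟩ := cycle_parts (e := e) hdz
  have hX := isCh_pX (e := e) hz
  have hY := isCh_pY (e := e) hz
  rw [hE] at hX hY
  have hsing : ∀ g, g ≠ f → pX e z {g} = 0 := by
    intro g hg
    by_contra h0
    have := (hX.supp _ h0).1
    exact hg (by simpa using this)
  have h1 : dd (pX e z) ∅ = sg f ∅ • pX e z {f} := by
    unfold dd
    rw [Finset.compl_empty, Finset.sum_eq_single f]
    · rfl
    · intro g _ hg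
      have : insert g (∅ : Finset ι) = {g} := rfl
      rw [this, hsing g hg, smul_zero]
    · intro h; exact absurd (Finset.mem_univ _) h
  refine bd_of_mem he hz hdz fun F => ?_
  by_cases hF : F = {f}
  · subst hF
    have h2 : pX e z {f} = sg f ∅ • (- pY e z ∅) := by
      rw [hy]
      show _ = sg f ∅ • (- (- dd (pX e z) ∅))
      rw [neg_neg, h1, smul_smul, sg_mul_self, one_smul]
    rw [h2]
    exact (A e).zsmul_mem ((A e).neg_mem (hY.mem ∅ e (by simp))) _
  · have : pX e z F = 0 := by
      by_contra h0
      obtain ⟨h3, h4⟩ := hX.supp _ h0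
      apply hF
      refine Finset.eq_of_subset_of_card_le h3 ?_
      rw [Finset.card_singleton]
      omega
    rw [this]
    exact (A e).zero_mem

theorem up_van : ∀ (m : ℕ) (E K : Finset ι) (k : ℤ), E.card = m → 2 ≤ nc a b K →
    (nc a b K : ℤ) - 1 ≤ k → Van (AS ℤ a b) K E k := by
  intro m
  induction m with
  | zero =>
    intro E K k hE hK hk z hz hdz
    have hz0 : z = 0 := chain_zero hz (by rw [hE]; push_cast; omega)
    exact ⟨0, IsCh.zero, by rw [dd_zero, hz0]⟩
  | succ m ih =>
    intro E K k hE hK hk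
    obtain ⟨e, he⟩ : E.Nonempty := Finset.card_pos.1 (by omega)
    have hE' : (E.erase e).card = m := by rw [Finset.card_erase_of_mem he]; omega
    by_cases hl : (gr a b K).Reachable (a e) (b e)
    · refine van_loop he fun φ hφ g => ?_
      exact AS_young hφ (fun v => reach_swap hl v) g
    have hlt := nc_insert hl
    by_cases h2 : 2 ≤ nc a b (insert e K)
    · refine van_delcon he (ih _ _ _ hE' hK hk) (ih _ _ _ hE' h2 ?_)
      omega
    · by_cases hemp : (E.erase e) = ∅
      · have hE1 : E.card = 1 := by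
          rw [← hE'] at hE
          rw [hE, hemp]; simp
        refine van_top ⟨e, he⟩ ?_
        rw [hE1]; push_cast; omega
      · obtain ⟨f, hf⟩ := Finset.nonempty_iff_ne_empty.2 hemp
        refine van_delcon he (ih _ _ _ hE' hK hk) (van_loop hf fun φ hφ g => ?_)
        exact AS_young hφ (fun v => reach_swap (nc_one (by omega) _ _) v) g

end Pool.Agent.Q195.CS
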