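import Pool.Agent.Q195.CS.Blocks

/-!
From alternating forms to functions on the symmetric group.
-/

set_option linter.unusedSectionVars false
set_option linter.unusedVariables false

namespace Pool.Agent.Q195.CS

open Finset Equiv

variable {V : Type*} [Fintype V] [DecidableEq V] {ι : Type*} [Fintype ι] [LinearOrder ι]
variable {a b : ι → V}

/-- functions on the symmetric group invariant under right multiplication by a transposition -/
def AS (R : Type*) [AddCommGroup R] (a b : ι → V) (e : ι) : AddSubgroup (Perm V → R) where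
  carrier := {φ | ∀ g, φ (g * swap (a e) (b e)) = φ g}
  add_mem' := fun {x y} hx hy g => by
    show x _ + y _ = x g + y g
    rw [hx, hy]
  zero_mem' := fun g => rfl
  neg_mem' := fun {x} hx g => by
    show - x _ = - x g
    rw [hx]

lemma mem_AS {R : Type*} [AddCommGroup R] {e : ι} {φ : Perm V → R} :
    φ ∈ AS R a b e ↔ ∀ g, φ (g * swap (a e) (b e)) = φ g := Iff.rfl

/-- clearing denominators -/
theorem van_rat {K E : Finset ι} {k : ℤ} (h : Van (AS ℤ a b) K E k) :
    Van (AS ℚ a b) K E k := by
  intro z hz hdz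
  obtain ⟨N, hN⟩ := IsLocalization.exist_integer_multiples_of_finite (nonZeroDivisors ℤ)
    (fun p : Finset ι × Perm V => z p.1 p.2)
  have hN0 : ((N : ℤ) : ℚ) ≠ 0 := by
    have := nonZeroDivisors.ne_zero N.2
    exact_mod_cast this
  have hN' : ∀ F g, ∃ n : ℤ, (n : ℚ) = ((N : ℤ) : ℚ) * z F g := by
    intro F g
    obtain ⟨n, hn⟩ := hN (F, g)
    refine ⟨n, ?_⟩
    simpa [zsmul_eq_mul] using hn
  choose z' hz' using hN'
  have hch : IsCh (AS ℤ a b) K E k z' := by
    constructor
    · intro F hF
      refine hz.supp F fun h0 => hF ?_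
      funext g
      have := hz' F g
      rw [h0] at this
      simp only [Pi.zero_apply, mul_zero] at this
      exact_mod_cast this
    · intro F e he g
      have h1 := hz' F (g * swap (a e) (b e))
      rw [hz.mem F e he g, ← hz' F g] at h1
      exact_mod_cast h1
  have hcast : ∀ (y : Finset ι → Perm V → ℤ) F g,
      ((dd y F g : ℤ) : ℚ) = ∑ e ∈ Fᶜ, (sg e F : ℚ) * (y (insert e F) g : ℚ) := by
    intro y F g
    unfold dd
    rw [Finset.sum_apply, Int.cast_sum]
    refine Finset.sum_congr rfl fun e _ => ?_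
    rw [Pi.smul_apply, smul_eq_mul, Int.cast_mul]
  have hddz : ∀ (y : Finset ι → Perm V → ℚ) F g,
      dd y F g = ∑ e ∈ Fᶜ, (sg e F : ℚ) * y (insert e F) g := by
    intro y F g
    unfold dd
    rw [Finset.sum_apply]
    refine Finset.sum_congr rfl fun e _ => ?_
    rw [Pi.smul_apply, zsmul_eq_mul]
  have hd : dd z' = 0 := by
    funext F g
    have h1 : ((dd z' F g : ℤ) : ℚ) = ((N : ℤ) : ℚ) * dd z F g := by
      rw [hcast, hddz, Finset.mul_sum]
      refine Finset.sum_congr rfl fun e _ => ?_
      rw [hz']; ring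
    rw [hdz] at h1
    simp only [Pi.zero_apply, mul_zero] at h1
    exact_mod_cast h1
  obtain ⟨y', hy', hdy'⟩ := h z' hch hd
  refine ⟨fun F g => (y' F g : ℚ) / ((N : ℤ) : ℚ), ⟨?_, ?_⟩, ?_⟩
  · intro F hF
    refine hy'.supp F fun h0 => hF ?_
    funext g
    simp [h0]
  · intro F e he g
    show (y' F (g * swap (a e) (b e)) : ℚ) / _ = (y' F g : ℚ) / _
    rw [hy'.mem F e he g]
  · funext F g
    rw [hddz]
    have h1 : ∑ e ∈ Fᶜ, (sg e F : ℚ) * ((y' (insert e F) g : ℚ) / ((N : ℤ) : ℚ)) =
        ((dd y' F g : ℤ) : ℚ) / ((N : ℤ) : ℚ) := by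
      rw [hcast, Finset.sum_div]
      refine Finset.sum_congr rfl fun e _ => by ring
    rw [h1, hdy', hz']
    field_simp

/-- the action of a permutation on forms -/
noncomputable def rho (j : ℕ) (g : Perm V) : Frm V j →ₗ[ℚ] Frm V j where
  toFun φ := φ.compLinearMap (LinearMap.funLeft ℚ ℚ g)
  map_add' x y := by ext w; simp
  map_smul' c x := by ext w; simp

lemma rho_apply (j : ℕ) (g : Perm V) (φ : Frm V j) (w : Fin j → (V → ℚ)) :
    rho j g φ w = φ (fun i => w i ∘ g) := rfl

lemma rho_mul (j : ℕ) (g h : Perm V) (φ : Frm V j) : rho j (g * h) φ = rho j g (rho j h φ) := by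
  ext w
  rw [rho_apply, rho_apply, rho_apply]
  rfl

lemma rho_one (j : ℕ) (φ : Frm V j) : rho j 1 φ = φ := by
  ext w
  rw [rho_apply]
  rfl

/-- changing arguments by multiples of `l` -/
lemma shift {j : ℕ} {l : V → ℚ} {φ : Frm V j} {w : Fin j → (V → ℚ)} {c : Fin j → ℚ}
    (S : Finset (Fin j))
    (h : ∀ k ∈ S, ∀ w' : Fin j → (V → ℚ), (∀ m, m ∉ S → w' m = w m) → w' k = l → φ w' = 0) :
    ∀ T : Finset (Fin j), T ⊆ S → φ (fun i => if i ∈ T then w i + c i • l else w i) = φ w := by
  intro T
  induction T using Finset.induction_on with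
  | empty => intro _; simp
  | insert k T hk ih =>
    intro hT
    have hTS : T ⊆ S := (Finset.subset_insert _ _).trans hT
    have hkS : k ∈ S := hT (Finset.mem_insert_self _ _)
    have h1 := ih hTS
    set f : Fin j → (V → ℚ) := fun i => if i ∈ T then w i + c i • l else w i with hf
    have h2 : (fun i => if i ∈ insert k T then w i + c i • l else w i) =
        Function.update f k (w k + c k • l) := by
      funext i
      by_cases hik : i = k
      · subst hik; simp
      · simp [hik, hf]
    have h3 : f = Function.update f k (w k) := by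
      funext i
      by_cases hik : i = k
      · subst hik; simp [hf, hk]
      · simp [hik]
    rw [h2, φ.map_update_add, φ.map_update_smul, ← h3, h1]
    have h4 : φ (Function.update f k l) = 0 := by
      refine h k hkS _ ?_ (by simp)
      intro m hm
      have hmk : m ≠ k := fun h => hm (h ▸ hkS)
      have hmT : m ∉ T := fun h => hm (hTS h)
      simp [hmk, hf, hmT]
    rw [h4, smul_zero, add_zero]

lemma comp_swap (u v : V) (w : V → ℚ) : w ∘ (swap u v) = w + (w u - w v) • dv u v := by
  funext x
  unfold dv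
  simp only [Function.comp_apply, Pi.add_apply, Pi.smul_apply, Pi.sub_apply, Pi.single_apply,
    smul_eq_mul]
  by_cases hxu : x = u
  · by_cases hxv : x = v
    · subst hxu; subst hxv; simp
    · subst hxu
      rw [swap_apply_left]
      simp [hxv]
  · by_cases hxv : x = v
    · subst hxv
      rw [swap_apply_right]
      simp [hxu]
    · rw [swap_apply_of_ne_of_ne hxu hxv]
      simp [hxu, hxv]

lemma rho_swap_of_nul {j : ℕ} {u v : V} {φ : Frm V j} (h : φ ∈ nul j (dv u v)) :
    rho j (swap u v) φ = φ := by
  ext w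
  rw [rho_apply]
  have h1 : (fun i => w i ∘ (swap u v)) = fun i => if i ∈ (Finset.univ : Finset (Fin j)) then
      w i + (w i u - w i v) • dv u v else w i := by
    funext i
    simp [comp_swap]
  rw [h1]
  exact shift (c := fun i => w i u - w i v) Finset.univ (fun k _ w' _ hk => h w' k hk) _
    (Finset.Subset.refl _)

lemma nul_of_rho_swap {j : ℕ} {u v : V} {φ : Frm V j} (h : rho j (swap u v) φ = φ) :
    φ ∈ nul j (dv u v) := by
  intro w i hi
  by_cases huv : u = v
  · subst huv
    refine φ.map_coord_zero i ?_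
    rw [hi]; simp [dv]
  have h1 : φ w = φ (fun k => w k ∘ (swap u v)) := by
    conv_lhs => rw [← h]
    rw [rho_apply]
  have h2 : (fun k => w k ∘ (swap u v)) = Function.update
      (fun k => if k ∈ (Finset.univ.erase i : Finset (Fin j)) then
      w k + (w k u - w k v) • dv u v else w k) i (- dv u v) := by
    funext k
    by_cases hk : k = i
    · subst hk
      rw [Function.update_self, hi, comp_swap]
      have h3 : dv u v u - dv u v v = (-2 : ℚ) := by
        simp [dv, huv, Ne.symm huv]; norm_num
      rw [h3]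
      module
    · rw [Function.update_of_ne hk, comp_swap]
      simp [hk]
  rw [h2, φ.map_update_neg] at h1
  have h4 : Function.update (fun k => if k ∈ (Finset.univ.erase i : Finset (Fin j)) then
      w k + (w k u - w k v) • dv u v else w k) i (dv u v) =
      fun k => if k ∈ (Finset.univ.erase i : Finset (Fin j)) then
      w k + (w k u - w k v) • dv u v else w k := by
    funext k
    by_cases hk : k = i
    · subst hk; simp [hi]
    · simp [hk]
  rw [h4, shift (c := fun i => w i u - w i v) (Finset.univ.erase i) (fun k hk w' hw' hk' => by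
    refine φ.map_eq_zero_of_eq w' (i := i) (j := k) ?_ (Ne.symm (Finset.ne_of_mem_erase hk))
    rw [hk', hw' i (by simp), hi]) _ (Finset.Subset.refl _)] at h1
  linarith

instance frm_finite (j : ℕ) : Module.Finite ℚ (Frm V j) := by
  refine Module.Finite.of_injective (AlternatingMap.toMultilinearMapLM (S := ℚ) :
    Frm V j →ₗ[ℚ] MultilinearMap ℚ (fun _ : Fin j => (V → ℚ)) ℚ) ?_
  exact AlternatingMap.coe_multilinearMap_injective

/-- from functions on the symmetric group to forms -/
theorem van_forms {K E : Finset ι} {k : ℤ} (j : ℕ) (h : Van (AS ℚ a b) K E k) :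
    Van (AF a b j) K E k := by
  intro z hz hdz
  let B := Module.finBasis ℚ (Frm V j)
  have hZ : ∀ i, ∃ y, IsCh (AS ℚ a b) K E (k + 1) y ∧
      dd y = fun F g => B.repr (rho j g (z F)) i := by
    intro i
    refine h _ ⟨?_, ?_⟩ ?_
    · intro F hF
      refine hz.supp F fun h0 => hF ?_
      funext g
      simp [h0]
    · intro F e he g
      show B.repr (rho j (g * swap (a e) (b e)) (z F)) i = B.repr (rho j g (z F)) i
      rw [rho_mul, rho_swap_of_nul (hz.mem F e he)]
    · funext F g
      have h1 : dd (fun F g => B.repr (rho j g (z F)) i) F g = B.repr (rho j g (dd z F)) i := by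
        unfold dd
        rw [Finset.sum_apply, map_sum, map_sum, Finsupp.finsetSum_apply]
        refine Finset.sum_congr rfl fun e _ => ?_
        rw [Pi.smul_apply, map_zsmul, map_zsmul, Finsupp.smul_apply]
      rw [h1, hdz]
      simp
  choose y hy hdy using hZ
  let c : ℚ := (Fintype.card (Perm V) : ℚ)
  have hc : c ≠ 0 := by
    simp only [c]
    exact_mod_cast Fintype.card_ne_zero
  refine ⟨fun F => c⁻¹ • ∑ g : Perm V, rho j g⁻¹ (∑ i, y i F g • B i), ⟨?_, ?_⟩, ?_⟩
  · intro F hF
    by_contra hcon
    apply hF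
    have : ∀ i, y i F = 0 := by
      intro i
      by_contra hi
      exact hcon ((hy i).supp F hi)
    simp [this]
  · intro F e he
    refine nul_of_rho_swap ?_
    rw [map_smul, map_sum]
    congr 1
    rw [← Equiv.sum_comp (Equiv.mulRight (swap (a e) (b e)))]
    refine Finset.sum_congr rfl fun g _ => ?_
    rw [← rho_mul]
    have h1 : swap (a e) (b e) * (Equiv.mulRight (swap (a e) (b e)) g)⁻¹ = g⁻¹ := by
      show swap (a e) (b e) * (g * swap (a e) (b e))⁻¹ = g⁻¹
      rw [mul_inv_rev, swap_inv, ← mul_assoc, swap_mul_self, one_mul]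
    rw [h1]
    congr 1
    refine Finset.sum_congr rfl fun i _ => ?_
    have h2 : y i F (Equiv.mulRight (swap (a e) (b e)) g) = y i F g := (hy i).mem F e he g
    rw [h2]
  · funext F
    have h1 : dd (fun F => c⁻¹ • ∑ g : Perm V, rho j g⁻¹ (∑ i, y i F g • B i)) F =
        c⁻¹ • ∑ g : Perm V, rho j g⁻¹ (∑ i, dd (y i) F g • B i) := by
      unfold dd
      simp only [Finset.sum_apply, Pi.smul_apply, Finset.sum_smul, map_sum, Finset.smul_sum]
      rw [Finset.sum_comm]
      refine Finset.sum_congr rfl fun g _ => ?_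
      rw [Finset.sum_comm]
      refine Finset.sum_congr rfl fun i _ => ?_
      refine Finset.sum_congr rfl fun e _ => ?_
      rw [smul_assoc, map_zsmul, smul_comm]
    rw [h1]
    have h2 : ∀ g : Perm V, rho j g⁻¹ (∑ i, dd (y i) F g • B i) = z F := by
      intro g
      have h3 : ∑ i, dd (y i) F g • B i = rho j g (z F) := by
        rw [← B.sum_repr (rho j g (z F))]
        refine Finset.sum_congr rfl fun i _ => ?_
        rw [hdy i]
      rw [h3, ← rho_mul, inv_mul_cancel, rho_one]
    rw [Finset.sum_congr rfl fun g _ => h2 g, Finset.sum_const, Finset.card_univ,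
      ← Nat.cast_smul_eq_nsmul ℚ, smul_smul, inv_mul_cancel₀ hc, one_smul]

end Pool.Agent.Q195.CS
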